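import Pool.Agent.Q315.PA.Almost

/-!
# The closures of almost all subgroups of `A(ℚ)`

Let `A` be a simple abelian variety over `ℚ` of dimension `n`, `p` a prime and `Q₁, ..., Q_R` rational points. For an integer matrix
`x` of size `m × R` let `L_x` be the subgroup of `A(ℚ)` generated by the `m` points `∑ x_ij Q_j`.

* Zero-one law: for every `m`, either the closure of `L_x` in `A(ℚ_p)` has `ℤ_p`-rank smaller than `m` for all `x`, or it is
  isomorphic to `ℤ_p ^ m` modulo finite torsion for all but at most `m (2 T + 1) ^ (m R - 1)` of the `(2 T + 1) ^ (m R)` matrices with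
  entries in `[-T, T]`, for every `T`. (Then `L_x` has rank `m`.)
* Let `F` be a subfield of the endomorphism algebra of `A` and let `Q₁, ..., Q_R` generate a subgroup of finite index of `A(ℚ)`,
  which is supposed to be infinite. Then for all `m ≤ [F : ℚ]` the second case holds: Q1 is true for almost all subgroups of rank
  `m`. If `[F : ℚ] = n` (abelian varieties of `GL₂`-type) these are all `m` considered in Q1.

The known theorems on abelian varieties which are used are the hypotheses `IsSimple` and `IsEndField`.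
-/

set_option autoImplicit false

namespace Pool.Agent.Results.MP_52423f_nt.AlmostAllSubgroups

open Module Pool.Agent.Q315.PA

/-- **Q1 for almost all subgroups.** -/
theorem result {p : ℕ} [Fact p.Prime] {n : ℕ} {Γ G : Type} [AddCommGroup Γ] [AddCommGroup G] [TopologicalSpace G]
    [IsTopologicalAddGroup G] [CompactSpace G] [T2Space G] (ι : Γ →+ G) (log : G →+ (Fin n → ℚ_[p])) (hA : IsSimple ι log)
    {F : Type} [Field F] [NumberField F] (act : F →ₐ[ℚ] Matrix (Fin n) (Fin n) ℚ) (O : Subring F) (e : O →+* AddMonoid.End Γ)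
    (hF : IsEndField ι log act O e) {R : ℕ} (Q : Fin R → Γ) (m : ℕ) :
    ((∀ x : Fin m → Fin R → ℤ, ¬ HasZpRank p ((grp Q x).map ι).topologicalClosure m) ∨
      ∀ T : ℕ, {x : Fin m → Fin R → ℤ | (∀ i j, |x i j| ≤ T) ∧
        ¬ HasZpRank p ((grp Q x).map ι).topologicalClosure m}.ncard ≤ m * (2 * T + 1) ^ (m * R - 1)) ∧
    (m ≤ finrank ℚ F → (∃ P : Γ, ¬ IsOfFinAddOrder P) →
      (∀ P : Γ, ∃ N : ℕ, N ≠ 0 ∧ N • P ∈ AddSubgroup.closure (Set.range Q)) →
      ∀ T : ℕ, {x : Fin m → Fin R → ℤ | (∀ i j, |x i j| ≤ T) ∧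
        ¬ HasZpRank p ((grp Q x).map ι).topologicalClosure m}.ncard ≤ m * (2 * T + 1) ^ (m * R - 1)) := by
  constructor
  · by_cases h : ∃ x₀ : Fin m → Fin R → ℤ, HasZpRank p ((grp Q x₀).map ι).topologicalClosure m
    · obtain ⟨x₀, h₀⟩ := h
      exact Or.inr fun T => zero_one hA.logarithm Q x₀ h₀ T
    · push Not at h
      exact Or.inl h
  · rintro hm ⟨P₀, hfin⟩ hQ T
    have hℓ := hA.subgroup_theorem P₀ hfin
    let b := finBasis ℚ F
    let y : Fin m → F := fun i => b (Fin.castLE hm i)
    have hy : LinearIndependent ℚ y := b.linearIndependent.comp _ (Fin.castLE_injective hm)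
    choose N hN hx using fun i => hF.order (y i)
    choose M hM hM1 using fun i => hQ (e ⟨_, hx i⟩ P₀)
    have hMx : ∀ i, ∃ c : Fin R → ℤ, ∑ j, c j • Q j = M i • e ⟨_, hx i⟩ P₀ := by
      intro i
      have h1 := hM1 i
      rw [← Submodule.span_int_eq_addSubgroupClosure] at h1
      exact (Submodule.mem_span_range_iff_exists_fun ℤ).1 h1
    choose x₀ hx₀ using hMx
    refine zero_one hA.logarithm Q x₀ ?_ T
    rw [hasZpRank_grp_iff hA.logarithm]
    have hq : ∀ i, ((M i : ℚ) * N i) ≠ 0 := fun i => mul_ne_zero (by exact_mod_cast hM i) (by exact_mod_cast hN i)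
    have hγ : LinearIndependent ℚ fun i => ((M i : ℚ) * N i) • y i := by
      have := hy.units_smul fun i => Units.mk0 _ (hq i)
      exact this
    have hkey := key hA.pos act (log (ι P₀)) hℓ _ hγ
    have hlog : (fun i => log (ι (pts Q x₀ i))) =
        fun i => (toMat (p := p) (act (((M i : ℚ) * N i) • y i))).mulVec (log (ι P₀)) := by
      funext i
      have h1 : pts Q x₀ i = M i • e ⟨_, hx i⟩ P₀ := hx₀ i
      rw [h1, map_nsmul, map_nsmul, hF.compat, ← Nat.cast_smul_eq_nsmul ℚ_[p], ← Matrix.smul_mulVec]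
      congr 1
      have h3 : (N i : F) * y i = (N i : ℚ) • y i := by
        rw [Algebra.smul_def]
        simp
      simp only [h3, map_smul]
      ext a c
      simp [toMat, mul_assoc]
    rw [hlog]
    exact hkey

end Pool.Agent.Results.MP_52423f_nt.AlmostAllSubgroups
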