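import Pool.Agent.Q229.EX

/-!
# The structure of the counterexamples to Q1

Let `A` be a simple abelian variety over `ℚ` of dimension `n`, `p` a prime, and `F` a subfield of its endomorphism algebra
(`F = ℚ` is allowed). Subgroups of `A(ℚ)` of rank one satisfy Q1. We describe the counterexamples to Q1 of rank two:

* There is a family of subgroups `V` of `A(ℚ)` whose closures have `ℤ_p`-rank one, different members of which have only torsion
  points in common, such that a subgroup of rank two is a counterexample to Q1 if and only if it is contained in one of them.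
* `[F : ℚ] · rank V ≤ rank A(ℚ)`: a subgroup whose closure has `ℤ_p`-rank one has at most the rank of the `F`-vector space
  `A(ℚ) ⊗ ℚ`. So if this vector space has dimension at most two, then two counterexamples of rank two are commensurable or have
  only torsion points in common.
* If `Q_1, …, Q_R` are independent points, then all but `2 (2 T + 1) ^ (R + rank A(ℚ) / [F : ℚ])` of the `(2 T + 1) ^ (2 R)` pairs
  of combinations of the `Q_j` with coefficients in `[-T, T]` generate a subgroup whose closure has `ℤ_p`-rank two.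

For counterexamples of arbitrary rank `m` we show: let `U` be a subgroup of rank `m + 1` whose closure has `ℤ_p`-rank at least
`m`, and let Q1 hold for the subgroups of `U` of rank `m - 1` (for `m = 2` this is so). Then all counterexamples to Q1 of rank `m`
in `U` are commensurable: there is at most one saturated counterexample.

The first and the last of these results use only the facts on `A(ℚ)` and `A(ℚ_p)` which are recalled in the setting of the problem
(`Setting`), and hold for all abelian varieties, simple or not. For the bounds with `[F : ℚ]` the known theorems on simple abelian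
varieties which are used are the hypotheses `IsSimple` and `IsEndField`.

Proof. The `ℤ_p`-rank of the closure is the dimension of the span of the logarithms; it is submodular in the subgroup, while the
rank is modular. For the bound on `rank V` let `P_i` be independent points of `V`; their logarithms are `c_i v` with a common
vector `v` and `c_i` in `ℚ_p` which are linearly independent over `ℚ`. By the `p`-adic analytic subgroup theorem the vectors
`α v`, `α` in a basis of `F`, are linearly independent over `ℚ_p`; so the points `α P_i` are independent.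
-/

set_option autoImplicit false

namespace Pool.Agent.Results.MP_52423f_nt.ExceptionalRankTwo

open Module Pool.Agent.Q315.PA

/-- Q1 fails for the subgroup `L`: the `ℤ_p`-rank of its closure is not the rank of `L`. -/
def Violates (p : ℕ) [Fact p.Prime] {Γ G : Type} [AddCommGroup Γ] [AddCommGroup G] [TopologicalSpace G]
    [IsTopologicalAddGroup G] (ι : Γ →+ G) (L : AddSubgroup Γ) : Prop :=
  ¬ HasZpRank p (L.map ι).topologicalClosure (finrank ℤ L)

/-- `L₁` and `L₂` are commensurable: every element of one of them has a nonzero multiple in the other. -/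
def Commens {Γ : Type} [AddCommGroup Γ] (L₁ L₂ : AddSubgroup Γ) : Prop :=
  (∀ P ∈ L₁, ∃ N : ℕ, N ≠ 0 ∧ N • P ∈ L₂) ∧ ∀ P ∈ L₂, ∃ N : ℕ, N ≠ 0 ∧ N • P ∈ L₁

section

set_option linter.unusedSectionVars false

variable {p : ℕ} [Fact p.Prime] {n : ℕ} {Γ G : Type} [AddCommGroup Γ] [AddCommGroup G] [TopologicalSpace G]
  [IsTopologicalAddGroup G] [CompactSpace G] [T2Space G] {ι : Γ →+ G} {log : G →+ (Fin n → ℚ_[p])}

/-- the dimension of the span of the logarithms -/
noncomputable def r (ι : Γ →+ G) (log : G →+ (Fin n → ℚ_[p])) (L : AddSubgroup Γ) : ℕ :=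
  finrank ℚ_[p] (lspan log (L.map ι))

lemma rank_iff (h : IsSimple ι log) (L : AddSubgroup Γ) (d : ℕ) :
    HasZpRank p (L.map ι).topologicalClosure d ↔ r ι log L = d := hasZpRank_closure_iff h.logarithm _ _

lemma fin_of (h : IsSimple ι log) (L : AddSubgroup Γ) : Module.Finite ℤ L := by
  have hfin : Module.Finite ℤ Γ := h.mordell_weil
  have : Module.Finite ℤ (AddSubgroup.toIntSubmodule L) := inferInstance
  exact this

/-- a subgroup of the same rank is of finite index -/
lemma torsion_of_rank (h : IsSimple ι log) {L M : AddSubgroup Γ} (hLM : L ≤ M) (hr : finrank ℤ M ≤ finrank ℤ L) (P : Γ)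
    (hP : P ∈ M) : ∃ N : ℕ, N ≠ 0 ∧ N • P ∈ L := by
  have hfM : Module.Finite ℤ M := fin_of h M
  have hfL : Module.Finite ℤ L := fin_of h L
  obtain ⟨b, hb⟩ := exists_linearIndependent_of_le_finrank (R := ℤ) (M := L) hr
  let c : Fin (finrank ℤ M) → M := fun i => ⟨b i, hLM (b i).2⟩
  let incl : L →ₗ[ℤ] M := (AddSubgroup.inclusion hLM).toIntLinearMap
  have hincl : Function.Injective incl := AddSubgroup.inclusion_injective hLM
  have hc : LinearIndependent ℤ c := hb.map' incl (LinearMap.ker_eq_bot.2 hincl)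
  have h1 : finrank ℤ (M ⧸ Submodule.span ℤ (Set.range c)) = 0 := by
    have h2 := Submodule.finrank_quotient_add_finrank (Submodule.span ℤ (Set.range c))
    rw [finrank_span_eq_card hc, Fintype.card_fin] at h2
    omega
  have h3 : Module.rank ℤ (M ⧸ Submodule.span ℤ (Set.range c)) = 0 := by
    rw [← finrank_eq_rank, h1, Nat.cast_zero]
  obtain ⟨N, hN0, hN⟩ := rank_eq_zero_iff.1 h3 (Submodule.Quotient.mk ⟨P, hP⟩)
  rw [← Submodule.Quotient.mk_smul, Submodule.Quotient.mk_eq_zero] at hN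
  obtain ⟨a, ha⟩ := (Submodule.mem_span_range_iff_exists_fun ℤ).1 hN
  have h4 : N • P ∈ L := by
    have h5 : ((∑ i, a i • c i : M) : Γ) = ((N • (⟨P, hP⟩ : M) : M) : Γ) := congrArg _ ha
    have h6 : ((∑ i, a i • c i : M) : Γ) ∈ L := by
      rw [AddSubgroup.val_finset_sum]
      exact L.sum_mem fun i _ => L.zsmul_mem (b i).2 _
    rw [h5] at h6
    exact h6
  refine ⟨N.natAbs, Int.natAbs_ne_zero.2 hN0, ?_⟩
  have h6 : ((N.natAbs : ℕ) : ℤ) • P ∈ L := by
    rcases Int.natAbs_eq N with h5 | h5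
    · rw [← h5]
      exact h4
    · have h7 : ((N.natAbs : ℕ) : ℤ) = -N := by omega
      rw [h7, neg_smul]
      exact L.neg_mem h4
  rwa [natCast_zsmul] at h6

/-- multiples do not change the span of the logarithms -/
lemma r_le_of_multiples {L M : AddSubgroup Γ} (hM : ∀ P ∈ M, ∃ N : ℕ, N ≠ 0 ∧ N • P ∈ L) :
    r ι log M ≤ r ι log L := by
  refine Submodule.finrank_mono ?_
  unfold lspan qspan
  rw [Submodule.span_le]
  rintro _ ⟨_, ⟨P, hP, rfl⟩, rfl⟩
  obtain ⟨N, hN, h1⟩ := hM P hP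
  have h2 : (N : ℚ_[p]) ≠ 0 := by exact_mod_cast hN
  have h3 : log (ι P) = (N : ℚ_[p])⁻¹ • log (ι (N • P)) := by
    rw [map_nsmul, map_nsmul, ← Nat.cast_smul_eq_nsmul ℚ_[p], smul_smul, inv_mul_cancel₀ h2, one_smul]
  rw [h3]
  exact Submodule.smul_mem _ _ (Submodule.subset_span ⟨_, ⟨_, h1, rfl⟩, rfl⟩)

/-- the span of the logarithms of a maximal independent family -/
lemma r_le (h : IsSimple ι log) (L : AddSubgroup Γ) : r ι log L ≤ finrank ℤ L := by
  have hfL : Module.Finite ℤ L := fin_of h L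
  obtain ⟨b, hb⟩ := exists_linearIndependent_of_le_finrank (R := ℤ) (M := L) le_rfl
  let M : AddSubgroup Γ := AddSubgroup.closure (Set.range fun i => (b i : Γ))
  have hML : M ≤ L := by
    rw [AddSubgroup.closure_le]
    rintro _ ⟨i, rfl⟩
    exact (b i).2
  have hfM : Module.Finite ℤ M := fin_of h M
  have hrk : finrank ℤ L ≤ finrank ℤ M := by
    let c : Fin (finrank ℤ L) → M := fun i => ⟨b i, AddSubgroup.subset_closure ⟨i, rfl⟩⟩
    have hc : LinearIndependent ℤ c := by
      let incl : M →ₗ[ℤ] L := (AddSubgroup.inclusion hML).toIntLinearMap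
      exact LinearIndependent.of_comp incl hb
    have := hc.fintype_card_le_finrank
    rwa [Fintype.card_fin] at this
  refine (r_le_of_multiples (torsion_of_rank h hML hrk)).trans ?_
  unfold r
  rw [lspan_closure_range]
  exact (finrank_range_le_card _).trans (by rw [Fintype.card_fin])

lemma r_mono {L M : AddSubgroup Γ} (hLM : L ≤ M) : r ι log L ≤ r ι log M :=
  Submodule.finrank_mono (lspan_mono (AddSubgroup.map_mono hLM))

/-- **The closure ranks are submodular.** -/
lemma r_sup_inf (L₁ L₂ : AddSubgroup Γ) :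
    r ι log (L₁ ⊔ L₂) + r ι log (L₁ ⊓ L₂) ≤ r ι log L₁ + r ι log L₂ := by
  have h1 : lspan log ((L₁ ⊔ L₂).map ι) = lspan log (L₁.map ι) ⊔ lspan log (L₂.map ι) := by
    unfold lspan qspan
    apply le_antisymm
    · rw [Submodule.span_le]
      rintro _ ⟨_, ⟨P, hP, rfl⟩, rfl⟩
      obtain ⟨y, hy, z, hz, rfl⟩ := AddSubgroup.mem_sup.1 hP
      rw [map_add, map_add]
      exact Submodule.add_mem_sup (Submodule.subset_span ⟨_, ⟨_, hy, rfl⟩, rfl⟩) (Submodule.subset_span ⟨_, ⟨_, hz, rfl⟩, rfl⟩)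
    · refine sup_le (Submodule.span_mono ?_) (Submodule.span_mono ?_)
      · exact AddSubgroup.map_mono (AddSubgroup.map_mono le_sup_left)
      · exact AddSubgroup.map_mono (AddSubgroup.map_mono le_sup_right)
  have h2 : lspan log ((L₁ ⊓ L₂).map ι) ≤ lspan log (L₁.map ι) ⊓ lspan log (L₂.map ι) :=
    le_inf (lspan_mono (AddSubgroup.map_mono inf_le_left)) (lspan_mono (AddSubgroup.map_mono inf_le_right))
  have h3 := Submodule.finrank_sup_add_finrank_inf_eq (lspan log (L₁.map ι)) (lspan log (L₂.map ι))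
  have h4 := Submodule.finrank_mono h2
  unfold r
  rw [h1]
  omega

/-- the ranks are modular -/
lemma rank_sup_inf (h : IsSimple ι log) (L₁ L₂ : AddSubgroup Γ) :
    finrank ℤ (L₁ ⊔ L₂ : AddSubgroup Γ) + finrank ℤ (L₁ ⊓ L₂ : AddSubgroup Γ) = finrank ℤ L₁ + finrank ℤ L₂ := by
  have hfin : Module.Finite ℤ Γ := h.mordell_weil
  have h1 := Submodule.rank_sup_add_rank_inf_eq (AddSubgroup.toIntSubmodule L₁) (AddSubgroup.toIntSubmodule L₂)
  rw [← OrderIso.map_sup, ← OrderIso.map_inf] at h1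
  rw [← finrank_eq_rank, ← finrank_eq_rank, ← finrank_eq_rank, ← finrank_eq_rank] at h1
  exact_mod_cast h1

lemma one_le_r (h : IsSimple ι log) {L : AddSubgroup Γ} {P : Γ} (hP : P ∈ L) (hfin : ¬ IsOfFinAddOrder P) : 1 ≤ r ι log L := by
  by_contra hlt
  have h0 : finrank ℚ_[p] (lspan log (L.map ι)) = 0 := by
    unfold r at hlt
    omega
  rw [Submodule.finrank_eq_zero] at h0
  have h1 : log (ι P) ∈ lspan log (L.map ι) := Submodule.subset_span ⟨_, ⟨P, hP, rfl⟩, rfl⟩
  rw [h0, Submodule.mem_bot] at h1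
  exact hfin ((log_eq_zero_iff h P).1 h1)

lemma exists_infinite (h : IsSimple ι log) {L : AddSubgroup Γ} (hL : 1 ≤ finrank ℤ L) : ∃ P ∈ L, ¬ IsOfFinAddOrder P := by
  have hfL : Module.Finite ℤ L := fin_of h L
  obtain ⟨b, hb⟩ := exists_linearIndependent_of_le_finrank (R := ℤ) (M := L) hL
  have h1 := (indep_rat h b hb).ne_zero 0
  exact ⟨b 0, (b 0).2, fun h2 => h1 ((log_eq_zero_iff h _).2 h2)⟩

/-- the points with logarithm in the line of the logarithm of `P` -/
noncomputable def line (ι : Γ →+ G) (log : G →+ (Fin n → ℚ_[p])) (P : Γ) : AddSubgroup Γ :=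
  ((Submodule.span ℚ_[p] {log (ι P)}).toAddSubgroup).comap (log.comp ι)

lemma mem_line (P Q : Γ) : Q ∈ line ι log P ↔ log (ι Q) ∈ Submodule.span ℚ_[p] {log (ι P)} := Iff.rfl

lemma self_mem_line (P : Γ) : P ∈ line ι log P := (mem_line P P).2 (Submodule.mem_span_singleton_self _)

lemma r_line (P : Γ) : r ι log (line ι log P) ≤ 1 := by
  have h1 : lspan log ((line ι log P).map ι) ≤ Submodule.span ℚ_[p] {log (ι P)} := by
    unfold lspan qspan
    rw [Submodule.span_le]
    rintro _ ⟨_, ⟨Q, hQ, rfl⟩, rfl⟩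
    exact hQ
  refine (Submodule.finrank_mono h1).trans ?_
  exact (finrank_span_le_card _).trans (by simp)

lemma lspan_eq_of_le_one (h : IsSimple ι log) {L : AddSubgroup Γ} (hL : r ι log L ≤ 1) {P : Γ} (hP : P ∈ L)
    (hfin : ¬ IsOfFinAddOrder P) : lspan log (L.map ι) = Submodule.span ℚ_[p] {log (ι P)} := by
  have hv0 : log (ι P) ≠ 0 := fun h1 => hfin ((log_eq_zero_iff h P).1 h1)
  symm
  apply Submodule.eq_of_le_of_finrank_le
  · rw [Submodule.span_singleton_le_iff_mem]
    exact Submodule.subset_span ⟨_, ⟨P, hP, rfl⟩, rfl⟩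
  · rw [finrank_span_singleton hv0]
    exact hL

lemma le_line (h : IsSimple ι log) {L : AddSubgroup Γ} (hL : r ι log L ≤ 1) {P : Γ} (hP : P ∈ L)
    (hfin : ¬ IsOfFinAddOrder P) : L ≤ line ι log P := by
  intro Q hQ
  rw [mem_line, ← lspan_eq_of_le_one h hL hP hfin]
  exact Submodule.subset_span ⟨_, ⟨Q, hQ, rfl⟩, rfl⟩

lemma line_eq (h : IsSimple ι log) {P Q : Γ} (hQ : Q ∈ line ι log P) (hfin : ¬ IsOfFinAddOrder Q) :
    line ι log P = line ι log Q := by
  have h1 := lspan_eq_of_le_one h (r_line P) hQ hfin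
  have hPf : ¬ IsOfFinAddOrder P := by
    intro h2
    rw [mem_line, (log_eq_zero_iff h P).2 h2, Submodule.span_zero_singleton, Submodule.mem_bot] at hQ
    exact hfin ((log_eq_zero_iff h Q).1 hQ)
  have h2 := lspan_eq_of_le_one h (r_line P) (self_mem_line P) hPf
  unfold line
  rw [← h2, ← h1]

variable {F : Type} [Field F] [NumberField F] {act : F →ₐ[ℚ] Matrix (Fin n) (Fin n) ℚ} {O : Subring F}
  {e : O →+* AddMonoid.End Γ}

/-- **A subgroup whose closure has rank at most one.** -/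
lemma rank_bound (h : IsSimple ι log) (hF : IsEndField ι log act O e) (L : AddSubgroup Γ) (hL : r ι log L ≤ 1) :
    finrank ℚ F * finrank ℤ L ≤ finrank ℤ Γ := by
  have hfin : Module.Finite ℤ Γ := h.mordell_weil
  have hfL : Module.Finite ℤ L := fin_of h L
  rcases Nat.eq_zero_or_pos (finrank ℤ L) with h0 | hpos
  · rw [h0, mul_zero]
    exact Nat.zero_le _
  obtain ⟨P, hP⟩ := exists_linearIndependent_of_le_finrank (R := ℤ) (M := L) le_rfl
  have hPQ := indep_rat h P hP
  let i₀ : Fin (finrank ℤ L) := ⟨0, hpos⟩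
  set v : Fin n → ℚ_[p] := log (ι (P i₀)) with hv
  have hv0 : v ≠ 0 := hPQ.ne_zero i₀
  have hfin0 : ¬ IsOfFinAddOrder ((P i₀ : L) : Γ) := fun h1 => hv0 ((log_eq_zero_iff h _).2 h1)
  have hspan := lspan_eq_of_le_one h hL (P i₀).2 hfin0
  have hc : ∀ i, ∃ c : ℚ_[p], c • v = log (ι (P i)) := by
    intro i
    have h1 : log (ι (P i)) ∈ lspan log (L.map ι) := Submodule.subset_span ⟨_, ⟨P i, (P i).2, rfl⟩, rfl⟩
    rw [hspan] at h1
    exact Submodule.mem_span_singleton.1 h1
  choose c hc using hc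
  have hcQ : LinearIndependent ℚ c := by
    rw [Fintype.linearIndependent_iff] at hPQ ⊢
    intro q hq
    refine hPQ q ?_
    calc ∑ i, q i • log (ι (P i)) = ∑ i, (q i • c i) • v := by
          refine Finset.sum_congr rfl fun i _ => ?_
          rw [← hc i, cast_smul_vec, smul_smul, Algebra.smul_def]
          rfl
      _ = (∑ i, q i • c i) • v := (Finset.sum_smul ..).symm
      _ = 0 := by rw [hq, zero_smul]
  let b := finBasis ℚ F
  choose N hN hO using fun j => hF.order (b j)
  let γ : Fin (finrank ℚ F) → F := fun j => (N j : F) * b j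
  have hγ : LinearIndependent ℚ γ := by
    have h1 : ∀ j, (N j : ℚ) ≠ 0 := fun j => by exact_mod_cast hN j
    have h2 := b.linearIndependent.units_smul fun j => Units.mk0 _ (h1 j)
    convert h2 using 1
    funext j
    simp [γ, Algebra.smul_def, Units.smul_def]
  have hkey := key h.pos act v (h.subgroup_theorem _ hfin0) γ hγ
  let w : Fin (finrank ℤ L) × Fin (finrank ℚ F) → Γ := fun ij => e ⟨_, hO ij.2⟩ (P ij.1)
  have hw : LinearIndependent ℤ w := by
    rw [Fintype.linearIndependent_iff]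
    intro a ha
    have h1 : ∑ j, (∑ i, (a (i, j) : ℚ_[p]) * c i) • (toMat (p := p) (act (γ j))).mulVec v = 0 := by
      have h2 : log (ι (∑ ij, a ij • w ij)) = 0 := by rw [ha, map_zero, map_zero]
      rw [← h2, map_sum, map_sum, Fintype.sum_prod_type_right]
      refine Finset.sum_congr rfl fun j _ => ?_
      rw [Finset.sum_smul]
      refine Finset.sum_congr rfl fun i _ => ?_
      rw [map_zsmul, map_zsmul]
      change _ = a (i, j) • log (ι (e ⟨_, hO j⟩ (P i)))
      rw [hF.compat, ← hc i, Matrix.mulVec_smul, ← Int.cast_smul_eq_zsmul ℚ_[p], smul_smul]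
    rintro ⟨i, j⟩
    have h3 := Fintype.linearIndependent_iff.1 hkey _ h1 j
    have h4 : ∑ i, (a (i, j) : ℚ) • c i = 0 := by
      rw [← h3]
      refine Finset.sum_congr rfl fun i _ => ?_
      rw [Algebra.smul_def]
      simp
    have h5 := Fintype.linearIndependent_iff.1 hcQ _ h4 i
    exact_mod_cast h5
  have := hw.fintype_card_le_finrank
  rw [Fintype.card_prod, Fintype.card_fin, Fintype.card_fin] at this
  rw [mul_comm]
  exact this

end

/-- **Points of a subgroup of `ℤ ^ R` in a box.** -/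
lemma count_box {R ρ : ℕ} (H : Submodule ℤ (Fin R → ℤ)) (h : finrank ℤ H ≤ ρ) (T : ℕ) :
    {y : Fin R → ℤ | (∀ j, |y j| ≤ T) ∧ y ∈ H}.ncard ≤ (2 * T + 1) ^ ρ := by
  classical
  let φ : Fin R → (H →ₗ[ℤ] ℤ) := fun j => (LinearMap.proj j).comp H.subtype
  obtain ⟨s, hs, hs2⟩ := exists_maximal_linearIndepOn ℤ φ
  have hcard : Fintype.card s ≤ ρ := by
    have h1 := (show LinearIndependent ℤ (fun i : s => φ i) from hs).fintype_card_le_finrank
    rw [Module.finrank_linearMap_self] at h1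
    exact h1.trans h
  -- the projection to the coordinates in `s` is injective on `H`
  let f : (Fin R → ℤ) → (s → ℤ) := fun y i => y i
  have hinj : Set.InjOn f {y : Fin R → ℤ | (∀ j, |y j| ≤ T) ∧ y ∈ H} := by
    rintro y ⟨_, hy⟩ z ⟨_, hz⟩ hyz
    let u : H := ⟨y, hy⟩ - ⟨z, hz⟩
    have hu : ∀ i ∈ s, φ i u = 0 := by
      intro i hi
      have h1 := congrFun hyz ⟨i, hi⟩
      change y i - z i = 0
      have h2 : y i = z i := h1
      rw [h2, sub_self]
    have hspan : ∀ ψ ∈ Submodule.span ℤ (φ '' s), ψ u = 0 := by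
      intro ψ hψ
      induction hψ using Submodule.span_induction with
      | mem x hx =>
        obtain ⟨i, hi, rfl⟩ := hx
        exact hu i hi
      | zero => rfl
      | add x y _ _ h1 h2 => rw [LinearMap.add_apply, h1, h2, add_zero]
      | smul a x _ h1 => rw [LinearMap.smul_apply, h1, smul_zero]
    funext j
    have h3 : φ j u = 0 := by
      by_cases hj : j ∈ s
      · exact hu j hj
      · obtain ⟨a, ha, h4⟩ := hs2 j hj
        have h5 := hspan _ h4
        rw [LinearMap.smul_apply, smul_eq_mul] at h5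
        exact (mul_eq_zero.1 h5).resolve_left ha
    have h4 : y j - z j = 0 := h3
    linarith
  have hmaps : Set.MapsTo f {y : Fin R → ℤ | (∀ j, |y j| ≤ T) ∧ y ∈ H}
      ((Fintype.piFinset fun _ : s => Finset.Icc (-(T : ℤ)) T : Finset (s → ℤ)) : Set (s → ℤ)) := by
    rintro y ⟨hy, _⟩
    rw [Finset.mem_coe, Fintype.mem_piFinset]
    intro i
    rw [Finset.mem_Icc]
    exact abs_le.1 (hy i)
  have h1 := Set.ncard_le_ncard_of_injOn f hmaps hinj (Finset.finite_toSet _)
  rw [Set.ncard_coe_finset, Fintype.card_piFinset, Finset.prod_const, Int.card_Icc, Finset.card_univ] at h1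
  have h2 : ((T : ℤ) + 1 - -(T : ℤ)).toNat = 2 * T + 1 := by omega
  rw [h2] at h1
  exact h1.trans (Nat.pow_le_pow_right (by omega) hcard)

section

set_option linter.unusedSectionVars false

variable {p : ℕ} [Fact p.Prime] {n : ℕ} {Γ G : Type} [AddCommGroup Γ] [AddCommGroup G] [TopologicalSpace G]
  [IsTopologicalAddGroup G] [CompactSpace G] [T2Space G] {ι : Γ →+ G} {log : G →+ (Fin n → ℚ_[p])}
  {F : Type} [Field F] [NumberField F] {act : F →ₐ[ℚ] Matrix (Fin n) (Fin n) ℚ} {O : Subring F}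
  {e : O →+* AddMonoid.End Γ}

lemma violates_iff (h : IsSimple ι log) (L : AddSubgroup Γ) : Violates p ι L ↔ r ι log L < finrank ℤ L := by
  unfold Violates
  rw [rank_iff h]
  have := r_le h L
  omega

lemma commens_of (h : IsSimple ι log) {m : ℕ} {L₁ L₂ : AddSubgroup Γ} (h1 : finrank ℤ L₁ = m) (h2 : finrank ℤ L₂ = m)
    (h3 : finrank ℤ (L₁ ⊔ L₂ : AddSubgroup Γ) ≤ m) : Commens L₁ L₂ :=
  ⟨fun P hP => torsion_of_rank h (le_sup_right : L₂ ≤ L₁ ⊔ L₂) (by omega) P (le_sup_left (a := L₁) (b := L₂) hP),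
    fun P hP => torsion_of_rank h (le_sup_left : L₁ ≤ L₁ ⊔ L₂) (by omega) P (le_sup_right (a := L₁) (b := L₂) hP)⟩

/-- the number of the second vectors for a given first one -/
lemma count_row (h : IsSimple ι log) (hF : IsEndField ι log act O e) {R : ℕ} (Q : Fin R → Γ)
    (hQ : LinearIndependent ℤ Q) (T : ℕ) (a : Fin R → ℤ) (ha : a ≠ 0) :
    {y : Fin R → ℤ | (∀ j, |y j| ≤ T) ∧
      ¬ HasZpRank p ((grp Q ![a, y]).map ι).topologicalClosure 2}.ncard ≤
        (2 * T + 1) ^ (finrank ℤ Γ / finrank ℚ F) := by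
  have hfin : Module.Finite ℤ Γ := h.mordell_weil
  have hf0 : 0 < finrank ℚ F := finrank_pos
  -- the point
  let lin : (Fin R → ℤ) →ₗ[ℤ] Γ := Fintype.linearCombination ℤ Q
  have hlin : Function.Injective lin := by
    rw [← LinearMap.ker_eq_bot, LinearMap.ker_eq_bot']
    intro x hx
    funext i
    exact Fintype.linearIndependent_iff.1 hQ x hx i
  have hpt : ∀ y, lin y = ∑ j, y j • Q j := fun y => rfl
  have hPne : ¬ IsOfFinAddOrder (lin a) := by
    intro h1
    obtain ⟨N, hN, h2⟩ := isOfFinAddOrder_iff_nsmul_eq_zero.1 h1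
    rw [← map_nsmul] at h2
    have h3 : N • a = 0 := hlin (by rw [h2, map_zero])
    rcases smul_eq_zero.1 h3 with h4 | h4
    · omega
    · exact ha h4
  let V := line ι log (lin a)
  let H : Submodule ℤ (Fin R → ℤ) := (AddSubgroup.toIntSubmodule V).comap lin
  have hH : finrank ℤ H ≤ finrank ℤ Γ / finrank ℚ F := by
    rw [Nat.le_div_iff_mul_le hf0, mul_comm]
    refine le_trans (Nat.mul_le_mul_left _ ?_) (rank_bound h hF V (r_line _))
    have hfV : Module.Finite ℤ V := fin_of h V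
    let g : H →ₗ[ℤ] V := (AddMonoidHom.mk' (fun x : H => (⟨lin x, x.2⟩ : V)) (fun x y => by
      apply Subtype.ext
      simp)).toIntLinearMap
    have hg : Function.Injective g := by
      intro x y hxy
      exact Subtype.ext (hlin (congrArg (fun z : V => (z : Γ)) hxy))
    exact LinearMap.finrank_le_finrank_of_injective hg
  refine le_trans (Set.ncard_le_ncard ?_ ?_) (count_box H hH T)
  · rintro y ⟨hy1, hy2⟩
    refine ⟨hy1, ?_⟩
    rw [hasZpRank_grp_iff h.logarithm] at hy2
    change lin y ∈ V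
    rw [mem_line]
    by_contra hy3
    apply hy2
    have h0 : log (ι (lin a)) ≠ 0 := fun h1 => hPne ((log_eq_zero_iff h _).1 h1)
    have hfun : (fun i => log (ι (pts Q ![a, y] i))) = ![log (ι (lin a)), log (ι (lin y))] := by
      funext i
      fin_cases i <;> rfl
    rw [hfun, LinearIndependent.pair_iff' h0]
    intro c hc
    exact hy3 (Submodule.mem_span_singleton.2 ⟨c, hc⟩)
  · refine (Set.finite_Icc (fun _ : Fin R => -(T : ℤ)) (fun _ => (T : ℤ))).subset ?_
    rintro y ⟨hy, -⟩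
    exact ⟨fun i => (abs_le.1 (hy i)).1, fun i => (abs_le.1 (hy i)).2⟩

/-- **The number of the pairs of points which generate a counterexample.** -/
lemma count_all (h : IsSimple ι log) (hF : IsEndField ι log act O e) {R : ℕ} (Q : Fin R → Γ)
    (hQ : LinearIndependent ℤ Q) (T : ℕ) :
    {x : Fin 2 → Fin R → ℤ | (∀ i j, |x i j| ≤ T) ∧
      ¬ HasZpRank p ((grp Q x).map ι).topologicalClosure 2}.ncard ≤
        2 * (2 * T + 1) ^ (R + finrank ℤ Γ / finrank ℚ F) := by
  classical
  set ρ := finrank ℤ Γ / finrank ℚ F with hρ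
  let B : Finset (Fin R → ℤ) := Fintype.piFinset fun _ => Finset.Icc (-(T : ℤ)) T
  have hB : B.card = (2 * T + 1) ^ R := by
    have h2 : ((T : ℤ) + 1 - -(T : ℤ)).toNat = 2 * T + 1 := by omega
    rw [Fintype.card_piFinset, Finset.prod_const, Int.card_Icc, Finset.card_univ, Fintype.card_fin, h2]
  have hmemB : ∀ y : Fin R → ℤ, y ∈ B ↔ ∀ j, |y j| ≤ T := by
    intro y
    simp only [B, Fintype.mem_piFinset, Finset.mem_Icc, abs_le]
  let Bad : (Fin R → ℤ) → Finset (Fin R → ℤ) := fun a =>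
    B.filter fun y => ¬ HasZpRank p ((grp Q ![a, y]).map ι).topologicalClosure 2
  have hBad : ∀ a, (Bad a).card ≤ (if a = 0 then (2 * T + 1) ^ R else 0) + (2 * T + 1) ^ ρ := by
    intro a
    split_ifs with ha
    · refine (Finset.card_filter_le _ _).trans ?_
      rw [hB]
      exact Nat.le_add_right _ _
    · rw [zero_add]
      refine le_trans (le_of_eq ?_) (count_row h hF Q hQ T a ha)
      rw [← Set.ncard_coe_finset]
      congr 1
      ext y
      simp only [Bad, Finset.coe_filter, hmemB, Set.mem_setOf_eq]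
  have hS : {x : Fin 2 → Fin R → ℤ | (∀ i j, |x i j| ≤ T) ∧
      ¬ HasZpRank p ((grp Q x).map ι).topologicalClosure 2} ⊆
        (((B.sigma Bad).image fun ay => ![ay.1, ay.2] : Finset (Fin 2 → Fin R → ℤ)) : Set (Fin 2 → Fin R → ℤ)) := by
    rintro x ⟨hx1, hx2⟩
    have hx : x = ![x 0, x 1] := by
      funext i
      fin_cases i <;> rfl
    rw [Finset.mem_coe, Finset.mem_image]
    refine ⟨⟨x 0, x 1⟩, ?_, hx.symm⟩
    rw [Finset.mem_sigma]
    refine ⟨(hmemB _).2 (hx1 0), ?_⟩
    change x 1 ∈ B.filter _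
    rw [Finset.mem_filter]
    refine ⟨(hmemB _).2 (hx1 1), ?_⟩
    rw [← hx]
    exact hx2
  have h1 := Set.ncard_le_ncard hS (Finset.finite_toSet _)
  rw [Set.ncard_coe_finset] at h1
  have h2 : ((B.sigma Bad).image fun ay => ![ay.1, ay.2] : Finset (Fin 2 → Fin R → ℤ)).card ≤ ∑ a ∈ B, (Bad a).card := by
    refine Finset.card_image_le.trans ?_
    rw [Finset.card_sigma]
  have h3 : ∑ a ∈ B, (Bad a).card ≤ (2 * T + 1) ^ R + (2 * T + 1) ^ R * (2 * T + 1) ^ ρ := by
    refine (Finset.sum_le_sum fun a _ => hBad a).trans ?_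
    rw [Finset.sum_add_distrib, Finset.sum_const, hB, smul_eq_mul, Finset.sum_ite_eq']
    gcongr
    split_ifs
    · exact le_rfl
    · exact Nat.zero_le _
  have h4 : (2 * T + 1) ^ R ≤ (2 * T + 1) ^ R * (2 * T + 1) ^ ρ := Nat.le_mul_of_pos_right _ (by positivity)
  refine h1.trans (h2.trans (h3.trans ?_))
  rw [pow_add]
  linarith

end

/-- The facts of the setting of the problem: `Γ = A(ℚ)` is finitely generated (Mordell–Weil) and a subgroup of the compact group
`G = A(ℚ_p)`, which has an open subgroup isomorphic to `ℤ_p ^ n`. They hold for every abelian variety `A` over `ℚ`. -/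
structure Setting (p : ℕ) [Fact p.Prime] (n : ℕ) {Γ G : Type} [AddCommGroup Γ] [AddCommGroup G] [TopologicalSpace G]
    (ι : Γ →+ G) : Prop where
  mordell_weil : Module.Finite ℤ Γ
  inj : Function.Injective ι
  points : ∃ U : AddSubgroup G, IsOpen (U : Set G) ∧ Nonempty (U ≃ₜ+ (Fin n → ℤ_[p]))

/-- **The structure of the counterexamples to Q1.** (1)–(3) use only the setting of the problem (and hold for all abelian
varieties); (4)–(6) are the additional information which the `p`-adic analytic subgroup theorem and a field `F` of endomorphisms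
of a simple abelian variety give. -/
theorem result {p : ℕ} [Fact p.Prime] {n : ℕ} {Γ G : Type} [AddCommGroup Γ] [AddCommGroup G] [TopologicalSpace G]
    [IsTopologicalAddGroup G] [CompactSpace G] [T2Space G] (ι : Γ →+ G) (hS : Setting p n ι) :
    (∃ 𝒱 : Set (AddSubgroup Γ),
      (∀ V ∈ 𝒱, HasZpRank p (V.map ι).topologicalClosure 1) ∧
      (∀ V ∈ 𝒱, ∀ V' ∈ 𝒱, V ≠ V' → ∀ P ∈ V ⊓ V', IsOfFinAddOrder P) ∧
      (∀ L : AddSubgroup Γ, HasZpRank p (L.map ι).topologicalClosure 1 → ∃ V ∈ 𝒱, L ≤ V) ∧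
      (∀ L : AddSubgroup Γ, finrank ℤ L = 2 → (Violates p ι L ↔ ∃ V ∈ 𝒱, L ≤ V))) ∧
    (∀ L : AddSubgroup Γ, finrank ℤ L ≤ 1 → ¬ Violates p ι L) ∧
    (∀ (m : ℕ) (U : AddSubgroup Γ), finrank ℤ U = m + 1 →
      (∀ d : ℕ, HasZpRank p (U.map ι).topologicalClosure d → m ≤ d) →
      (∀ L ≤ U, finrank ℤ L + 1 = m → ¬ Violates p ι L) →
      ∀ L₁ ≤ U, ∀ L₂ ≤ U, finrank ℤ L₁ = m → finrank ℤ L₂ = m → Violates p ι L₁ → Violates p ι L₂ → Commens L₁ L₂) ∧
    ∀ log : G →+ (Fin n → ℚ_[p]), IsSimple ι log → ∀ (F : Type) [Field F] [NumberField F]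
      (act : F →ₐ[ℚ] Matrix (Fin n) (Fin n) ℚ) (O : Subring F) (e : O →+* AddMonoid.End Γ), IsEndField ι log act O e →
      (∀ V : AddSubgroup Γ, HasZpRank p (V.map ι).topologicalClosure 1 → finrank ℚ F * finrank ℤ V ≤ finrank ℤ Γ) ∧
      (finrank ℤ Γ < 3 * finrank ℚ F → ∀ L₁ L₂ : AddSubgroup Γ, finrank ℤ L₁ = 2 → finrank ℤ L₂ = 2 →
        Violates p ι L₁ → Violates p ι L₂ → Commens L₁ L₂ ∨ ∀ P ∈ L₁ ⊓ L₂, IsOfFinAddOrder P) ∧
      ∀ (R : ℕ) (Q : Fin R → Γ), LinearIndependent ℤ Q → ∀ T : ℕ,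
        {x : Fin 2 → Fin R → ℤ | (∀ i j, |x i j| ≤ T) ∧
          ¬ HasZpRank p ((grp Q x).map ι).topologicalClosure 2}.ncard ≤
            2 * (2 * T + 1) ^ (R + finrank ℤ Γ / finrank ℚ F) := by
  obtain ⟨U₀, hU₀, ⟨φ₀⟩⟩ := hS.points
  obtain ⟨log₀, hlog₀⟩ := Pool.Agent.Q229.EX.exists_log hU₀ φ₀
  have hA : Pool.Agent.Q229.EX.Base ι log₀ := ⟨hS.mordell_weil, hS.inj, hlog₀⟩
  have hpt : ∀ L : AddSubgroup Γ, Pool.Agent.Q229.EX.r ι log₀ L = 1 → ∃ P ∈ L, ¬ IsOfFinAddOrder P := by
    intro L hL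
    refine Pool.Agent.Q229.EX.exists_infinite hA ?_
    have := Pool.Agent.Q229.EX.r_le hA L
    omega
  have hsmall : ∀ L : AddSubgroup Γ, finrank ℤ L ≤ 1 → ¬ Violates p ι L := by
    intro L hL hV
    rw [Violates, Pool.Agent.Q229.EX.violates_iff hA] at hV
    obtain ⟨P, hP, hfin⟩ := Pool.Agent.Q229.EX.exists_infinite hA (L := L) (by omega)
    have := Pool.Agent.Q229.EX.one_le_r hA hP hfin
    omega
  refine ⟨⟨{V | ∃ P, ¬ IsOfFinAddOrder P ∧ V = Pool.Agent.Q229.EX.line ι log₀ P}, ?_, ?_, ?_, ?_⟩, hsmall, ?_, ?_⟩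
  · rintro _ ⟨P, hP, rfl⟩
    rw [Pool.Agent.Q229.EX.rank_iff hA]
    exact le_antisymm (Pool.Agent.Q229.EX.r_line P) (Pool.Agent.Q229.EX.one_le_r hA (Pool.Agent.Q229.EX.self_mem_line P) hP)
  · rintro _ ⟨P, hP, rfl⟩ _ ⟨P', hP', rfl⟩ hne Q hQ
    by_contra hfin
    exact hne ((Pool.Agent.Q229.EX.line_eq hA hQ.1 hfin).trans (Pool.Agent.Q229.EX.line_eq hA hQ.2 hfin).symm)
  · intro L hL
    rw [Pool.Agent.Q229.EX.rank_iff hA] at hL
    obtain ⟨P, hP, hfin⟩ := hpt L hL
    exact ⟨_, ⟨P, hfin, rfl⟩, Pool.Agent.Q229.EX.le_line hA hL.le hP hfin⟩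
  · intro L hL
    rw [Violates, Pool.Agent.Q229.EX.violates_iff hA, hL]
    constructor
    · intro h1
      obtain ⟨P, hP, hfin⟩ := Pool.Agent.Q229.EX.exists_infinite hA (L := L) (by omega)
      exact ⟨_, ⟨P, hfin, rfl⟩, Pool.Agent.Q229.EX.le_line hA (by omega) hP hfin⟩
    · rintro ⟨_, ⟨P, hP, rfl⟩, h1⟩
      have := (Pool.Agent.Q229.EX.r_mono (ι := ι) (log := log₀) h1).trans (Pool.Agent.Q229.EX.r_line P)
      omega
  · intro m U hU hd hsub L₁ hL₁ L₂ hL₂ h1 h2 hv1 hv2
    rw [Violates, Pool.Agent.Q229.EX.violates_iff hA] at hv1 hv2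
    by_contra hne
    have hsup : L₁ ⊔ L₂ ≤ U := sup_le hL₁ hL₂
    have hfU : Module.Finite ℤ U := Pool.Agent.Q229.EX.fin_of hA U
    have h3 : finrank ℤ (L₁ ⊔ L₂ : AddSubgroup Γ) ≤ m + 1 := by
      rw [← hU]
      let incl : (L₁ ⊔ L₂ : AddSubgroup Γ) →ₗ[ℤ] U := (AddSubgroup.inclusion hsup).toIntLinearMap
      exact LinearMap.finrank_le_finrank_of_injective (f := incl) (AddSubgroup.inclusion_injective hsup)
    have h4 : ¬ finrank ℤ (L₁ ⊔ L₂ : AddSubgroup Γ) ≤ m := fun h5 => hne (Pool.Agent.Q229.EX.commens_of hA h1 h2 h5)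
    have h5 := Pool.Agent.Q229.EX.rank_sup_inf hA L₁ L₂
    have h6 := hsub (L₁ ⊓ L₂) (inf_le_left.trans hL₁) (by omega)
    rw [Violates, Pool.Agent.Q229.EX.violates_iff hA] at h6
    have h7 := Pool.Agent.Q229.EX.r_sup_inf (ι := ι) (log := log₀) L₁ L₂
    have h8 : Pool.Agent.Q229.EX.r ι log₀ U ≤ Pool.Agent.Q229.EX.r ι log₀ (L₁ ⊔ L₂) :=
      Pool.Agent.Q229.EX.r_le_of_multiples (Pool.Agent.Q229.EX.torsion_of_rank hA hsup (by omega))
    have h9 := hd _ ((Pool.Agent.Q229.EX.rank_iff hA U _).2 rfl)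
    omega
  · intro log hA F _ _ act O e hF
    refine ⟨fun V hV => ?_, ?_, fun R Q hQ T => count_all hA hF Q hQ T⟩
    · rw [rank_iff hA] at hV
      exact rank_bound hA hF V hV.le
    · intro hR L₁ L₂ h1 h2 hv1 hv2
      rw [violates_iff hA] at hv1 hv2
      by_cases hfin : ∀ P ∈ L₁ ⊓ L₂, IsOfFinAddOrder P
      · exact Or.inr hfin
      · left
        push Not at hfin
        obtain ⟨P, hP, hfin⟩ := hfin
        have h3 := one_le_r hA hP hfin
        have h4 := r_sup_inf (ι := ι) (log := log) L₁ L₂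
        have h5 := rank_bound hA hF (L₁ ⊔ L₂) (by omega)
        refine commens_of hA h1 h2 ?_
        have h6 : finrank ℚ F * finrank ℤ (L₁ ⊔ L₂ : AddSubgroup Γ) < finrank ℚ F * 3 := by
          rw [mul_comm (finrank ℚ F) 3]
          exact lt_of_le_of_lt h5 hR
        have := lt_of_mul_lt_mul_left h6 (Nat.zero_le _)
        omega

end Pool.Agent.Results.MP_52423f_nt.ExceptionalRankTwo
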