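import Pool.Agent.Results.MP_52423f_nt.ExceptionalRankTwo

/-!
# The counterexamples to Q1 of rank two form one orbit

Let `A` be a simple abelian variety over `ℚ` of dimension `n`, `p` a prime, `F` a subfield of its endomorphism algebra and `O` the
ring of the endomorphisms in `F`. For a subgroup `L` of `A(ℚ)` let `F L` be the group generated by the images of `L` under `O`.
Let `L` be a counterexample to Q1 of rank two: the closure of `L` in `A(ℚ_p)` has `ℤ_p`-rank one. We show:

* `F L` has rank `2 [F : ℚ]`, and the images `x L`, `0 ≠ x ∈ O`, are also counterexamples of rank two;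
* up to commensurability these are the only counterexamples of rank two in `F L`.

So if `A(ℚ) ⊗ ℚ` has dimension two over `F`, for example if `A` is attached to a newform and has rank `2 [F : ℚ]`, then up to
commensurability the counterexamples to Q1 of rank two are none or form one orbit under `F^×`.

The known theorems on abelian varieties which are used are the hypotheses `IsSimple`, `IsEndField` and `RatioTheorem`. The last one
is a consequence of the `p`-adic analytic subgroup theorem for `A × A`.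

Proof. Let `log P₂ = c log P₁` for two independent points of `L`. By the analytic subgroup theorem `c` is transcendental. Let `L'`
be another counterexample in `F L`, with the points `P₁' = α₁ P₁ + α₂ P₂` and `P₂' = β₁ P₁ + β₂ P₂`, `log P₂' = c' log P₁'`. In a
basis of `F` over `ℚ` this gives `β₁ₖ + c β₂ₖ = c' (α₁ₖ + c α₂ₖ)` for all `k`, as the vectors `b_k log P₁` are linearly independent
over `ℚ_p`. We eliminate `c'` and get equations of degree two for `c`, which hold identically in `c`. They imply that the matrix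
of the `α` and `β` is a rational matrix times an element of `F`.
-/

set_option autoImplicit false

namespace Pool.Agent.Results.MP_52423f_nt.OneOrbit

open Module Pool.Agent.Q315.PA
open Pool.Agent.Results.MP_52423f_nt.ExceptionalRankTwo (Violates Commens r rank_iff fin_of torsion_of_rank r_le_of_multiples
  r_le r_mono one_le_r exists_infinite lspan_eq_of_le_one violates_iff commens_of)

/-- linear algebra over `ℚ` -/
lemma prop4 (u w s t a b x y : ℚ) (hΔ : u * t - w * s ≠ 0) (E1 : x * u = s * a) (E2 : x * w + y * u = s * b + t * a)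
    (E3 : y * w = t * b) : ∃ l : ℚ, a = l * u ∧ b = l * w ∧ x = l * s ∧ y = l * t := by
  by_cases hu : u = 0
  · subst hu
    have hw : w ≠ 0 := fun h => hΔ (by rw [h]; ring)
    have hs : s ≠ 0 := fun h => hΔ (by rw [h]; ring)
    have ha : a = 0 := by
      have : s * a = 0 := by rw [← E1]; ring
      exact (mul_eq_zero.1 this).resolve_left hs
    subst ha
    refine ⟨b / w, by ring, by field_simp, ?_, ?_⟩
    · field_simp
      linarith
    · field_simp
      linarith
  · have h1 : x = a / u * s := by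
      field_simp
      linarith
    have h2 : (u * t - w * s) * (b * u - a * w) = 0 := by
      linear_combination u * w * E2 - w * w * E1 - u * u * E3
    have h3 : b * u - a * w = 0 := (mul_eq_zero.1 h2).resolve_left hΔ
    refine ⟨a / u, by field_simp, ?_, h1, ?_⟩
    · field_simp
      linarith
    · field_simp
      have h4 : u * (y * u - a * t) = 0 := by
        linear_combination u * E2 - w * E1 + s * h3
      have h5 := (mul_eq_zero.1 h4).resolve_left hu
      linarith

section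

set_option linter.unusedSectionVars false

variable {p : ℕ} [Fact p.Prime] {n : ℕ} {Γ G : Type} [AddCommGroup Γ] [AddCommGroup G] [TopologicalSpace G]
  [IsTopologicalAddGroup G] [CompactSpace G] [T2Space G] {ι : Γ →+ G} {log : G →+ (Fin n → ℚ_[p])}

/-- a quadratic relation of a transcendental number -/
lemma trans3 {c : ℚ_[p]} (hc : Transcendental ℚ c) (A B C : ℚ) (h : (A : ℚ_[p]) + B * c + C * c ^ 2 = 0) :
    A = 0 ∧ B = 0 ∧ C = 0 := by
  open Polynomial in
  have h1 : aeval c ((Polynomial.C A + Polynomial.C B * Polynomial.X + Polynomial.C C * Polynomial.X ^ 2 : ℚ[X])) = 0 := by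
    simp only [map_add, map_mul, map_pow, Polynomial.aeval_C, Polynomial.aeval_X]
    exact h
  have h2 := (transcendental_iff.1 hc) _ h1
  have e0 := congrArg (fun q => Polynomial.coeff q 0) h2
  have e1 := congrArg (fun q => Polynomial.coeff q 1) h2
  have e2 := congrArg (fun q => Polynomial.coeff q 2) h2
  simp [Polynomial.coeff_X, Polynomial.coeff_C, Polynomial.coeff_X_pow] at e0 e1 e2
  exact ⟨e0, e1, e2⟩

/-- The consequence of the `p`-adic analytic subgroup theorem for `A × A` which we use: if the logarithms of two rational points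
are proportional with an algebraic factor, and the first point has infinite order, then the factor is rational. -/
def RatioTheorem (ι : Γ →+ G) (log : G →+ (Fin n → ℚ_[p])) : Prop :=
  ∀ (P Q : Γ) (c : ℚ_[p]), ¬ IsOfFinAddOrder P → log (ι Q) = c • log (ι P) → IsAlgebraic ℚ c → ∃ q : ℚ, c = q

/-- a point whose logarithm is a rational combination of logarithms of points of a subgroup -/
lemma mult_mem (h : IsSimple ι log) {M : AddSubgroup Γ} {A B Q : Γ} (hA : A ∈ M) (hB : B ∈ M) (q₁ q₂ : ℚ)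
    (hlog : log (ι Q) = (q₁ : ℚ_[p]) • log (ι A) + (q₂ : ℚ_[p]) • log (ι B)) : ∃ N : ℕ, N ≠ 0 ∧ N • Q ∈ M := by
  set m₁ : ℤ := q₁.num * q₂.den with hm₁
  set m₂ : ℤ := q₂.num * q₁.den with hm₂
  set D : ℕ := q₁.den * q₂.den with hD
  have hq1 : (q₁ : ℚ_[p]) * q₁.den = q₁.num := by exact_mod_cast congrArg (fun z : ℚ => (z : ℚ_[p])) (Rat.mul_den_eq_num q₁)
  have hq2 : (q₂ : ℚ_[p]) * q₂.den = q₂.num := by exact_mod_cast congrArg (fun z : ℚ => (z : ℚ_[p])) (Rat.mul_den_eq_num q₂)
  have h1 : log (ι (D • Q - (m₁ • A + m₂ • B))) = 0 := by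
    rw [map_sub, map_sub, map_nsmul, map_nsmul, map_add, map_add, map_zsmul, map_zsmul, map_zsmul, map_zsmul, hlog,
      ← Nat.cast_smul_eq_nsmul ℚ_[p], ← Int.cast_smul_eq_zsmul ℚ_[p], ← Int.cast_smul_eq_zsmul ℚ_[p], smul_add, smul_smul,
      smul_smul]
    have e1 : ((D : ℕ) : ℚ_[p]) * q₁ = (m₁ : ℤ) := by
      rw [hD, hm₁]
      push_cast
      rw [← hq1]
      ring
    have e2 : ((D : ℕ) : ℚ_[p]) * q₂ = (m₂ : ℤ) := by
      rw [hD, hm₂]
      push_cast
      rw [← hq2]
      ring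
    rw [e1, e2, sub_self]
  obtain ⟨M', hM', h2⟩ := isOfFinAddOrder_iff_nsmul_eq_zero.1 ((log_eq_zero_iff h _).1 h1)
  refine ⟨M' * D, Nat.mul_ne_zero hM'.ne' (Nat.mul_ne_zero q₁.den_nz q₂.den_nz), ?_⟩
  rw [nsmul_sub, sub_eq_zero, ← mul_nsmul'] at h2
  rw [h2]
  exact M.nsmul_mem (M.add_mem (M.zsmul_mem hA _) (M.zsmul_mem hB _)) _

variable {F : Type} [Field F] [NumberField F] {act : F →ₐ[ℚ] Matrix (Fin n) (Fin n) ℚ} {O : Subring F}
  {e : O →+* AddMonoid.End Γ}

/-- the vectors `α v` -/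
noncomputable def Phi (act : F →ₐ[ℚ] Matrix (Fin n) (Fin n) ℚ) (v : Fin n → ℚ_[p]) : F →ₗ[ℚ] (Fin n → ℚ_[p]) where
  toFun α := (toMat (act α)).mulVec v
  map_add' α β := by
    have : toMat (p := p) (act (α + β)) = toMat (act α) + toMat (act β) := by
      rw [map_add]
      ext i j
      simp [toMat]
    rw [this, Matrix.add_mulVec]
  map_smul' q α := by
    have : toMat (p := p) (act (q • α)) = (q : ℚ_[p]) • toMat (act α) := by
      rw [map_smul]
      ext i j
      simp [toMat]
    rw [this, Matrix.smul_mulVec, RingHom.id_apply, cast_smul_vec]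

lemma Phi_one (v : Fin n → ℚ_[p]) : Phi act v 1 = v := by
  change (toMat (act 1)).mulVec v = v
  have : toMat (p := p) (act (1 : F)) = 1 := by
    rw [map_one]
    ext i j
    simp [toMat, Matrix.one_apply]
  rw [this, Matrix.one_mulVec]

lemma mul_Phi (v : Fin n → ℚ_[p]) (x α : F) : (toMat (act x)).mulVec (Phi act v α) = Phi act v (x * α) := by
  change (toMat (act x)).mulVec ((toMat (act α)).mulVec v) = (toMat (act (x * α))).mulVec v
  have : toMat (p := p) (act (x * α)) = toMat (act x) * toMat (act α) := by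
    rw [map_mul]
    unfold toMat
    rw [Matrix.map_mul]
  rw [this, Matrix.mulVec_mulVec]

lemma Phi_sum (v : Fin n → ℚ_[p]) {κ : Type} [Fintype κ] (B : Basis κ ℚ F) (α : F) :
    Phi act v α = ∑ k, ((B.repr α k : ℚ) : ℚ_[p]) • Phi act v (B k) := by
  conv_lhs => rw [← B.sum_repr α]
  rw [map_sum]
  refine Finset.sum_congr rfl fun k _ => ?_
  rw [map_smul, cast_smul_vec]

/-- the group generated by the images of `L` under the endomorphisms in `O` -/
def orbitSpan (e : O →+* AddMonoid.End Γ) (L : AddSubgroup Γ) : AddSubgroup Γ :=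
  AddSubgroup.closure {Q | ∃ x : O, ∃ P ∈ L, Q = e x P}

/-- the image of `L` under the endomorphism `x` -/
def image (e : O →+* AddMonoid.End Γ) (x : O) (L : AddSubgroup Γ) : AddSubgroup Γ := L.map (e x)

lemma mem_image {x : O} {L : AddSubgroup Γ} {Q : Γ} : Q ∈ image e x L ↔ ∃ P ∈ L, e x P = Q := Iff.rfl

/-- two independent points of a subgroup of rank two -/
lemma ratcomb (h : IsSimple ι log) {L : AddSubgroup Γ} (hL : finrank ℤ L = 2) :
    ∃ P₁ ∈ L, ∃ P₂ ∈ L,
      (∀ a b : ℚ, (a : ℚ_[p]) • log (ι P₁) + (b : ℚ_[p]) • log (ι P₂) = 0 → a = 0 ∧ b = 0) ∧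
      ∀ Q ∈ L, ∃ a b : ℚ, log (ι Q) = (a : ℚ_[p]) • log (ι P₁) + (b : ℚ_[p]) • log (ι P₂) := by
  have hfL : Module.Finite ℤ L := fin_of h L
  obtain ⟨P, hP⟩ := exists_linearIndependent_of_le_finrank (R := ℤ) (M := L) hL.ge
  have hPQ := indep_rat h P hP
  refine ⟨P 0, (P 0).2, P 1, (P 1).2, ?_, ?_⟩
  · intro a b hab
    have h1 := Fintype.linearIndependent_iff.1 hPQ ![a, b] (by
      rw [Fin.sum_univ_two]
      simp only [Matrix.cons_val_zero, Matrix.cons_val_one, cast_smul_vec]
      exact hab)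
    exact ⟨h1 0, h1 1⟩
  · intro Q hQ
    let M : AddSubgroup Γ := AddSubgroup.closure (Set.range fun i => (P i : Γ))
    have hML : M ≤ L := by
      rw [AddSubgroup.closure_le]
      rintro _ ⟨i, rfl⟩
      exact (P i).2
    have hfM : Module.Finite ℤ M := fin_of h M
    have hrk : finrank ℤ L ≤ finrank ℤ M := by
      let c : Fin 2 → M := fun i => ⟨P i, AddSubgroup.subset_closure ⟨i, rfl⟩⟩
      have hc : LinearIndependent ℤ c := by
        let incl : M →ₗ[ℤ] L := (AddSubgroup.inclusion hML).toIntLinearMap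
        exact LinearIndependent.of_comp incl hP
      have := hc.fintype_card_le_finrank
      rwa [Fintype.card_fin, ← hL] at this
    obtain ⟨N, hN, hQM⟩ := torsion_of_rank h hML hrk Q hQ
    have hcomb : ∀ x ∈ M, ∃ a b : ℤ, log (ι x) = (a : ℚ_[p]) • log (ι (P 0)) + (b : ℚ_[p]) • log (ι (P 1)) := by
      intro x hx
      induction hx using AddSubgroup.closure_induction with
      | mem x hx =>
        obtain ⟨i, rfl⟩ := hx
        fin_cases i
        · exact ⟨1, 0, by simp⟩
        · exact ⟨0, 1, by simp⟩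
      | zero => exact ⟨0, 0, by simp⟩
      | add x y _ _ h1 h2 =>
        obtain ⟨a, b, h1⟩ := h1
        obtain ⟨a', b', h2⟩ := h2
        refine ⟨a + a', b + b', ?_⟩
        rw [map_add, map_add, h1, h2]
        push_cast
        module
      | neg x _ h1 =>
        obtain ⟨a, b, h1⟩ := h1
        refine ⟨-a, -b, ?_⟩
        rw [map_neg, map_neg, h1]
        push_cast
        module
    obtain ⟨a, b, h1⟩ := hcomb _ hQM
    have hNp : (N : ℚ_[p]) ≠ 0 := by exact_mod_cast hN
    refine ⟨(a : ℚ) / N, (b : ℚ) / N, ?_⟩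
    have h2 : log (ι Q) = (N : ℚ_[p])⁻¹ • log (ι (N • Q)) := by
      rw [map_nsmul, map_nsmul, ← Nat.cast_smul_eq_nsmul ℚ_[p], smul_smul, inv_mul_cancel₀ hNp, one_smul]
    rw [h2, h1, smul_add, smul_smul, smul_smul]
    push_cast
    congr 2 <;> ring

/-- the logarithms of the points of `F L` -/
lemma log_orbitSpan (hF : IsEndField ι log act O e) {L : AddSubgroup Γ} {v : Fin n → ℚ_[p]} {c : ℚ_[p]}
    (hL : ∀ Q ∈ L, ∃ a b : ℚ, log (ι Q) = (a : ℚ_[p]) • v + (b : ℚ_[p]) • (c • v)) {N : ℕ} (hN : N ≠ 0) {Q : Γ}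
    (hQ : N • Q ∈ orbitSpan e L) : ∃ α β : F, log (ι Q) = Phi act v α + c • Phi act v β := by
  have hsp : ∀ x ∈ orbitSpan e L, ∃ α β : F, log (ι x) = Phi act v α + c • Phi act v β := by
    intro x hx
    induction hx using AddSubgroup.closure_induction with
    | mem x hx =>
      obtain ⟨y, P, hP, rfl⟩ := hx
      obtain ⟨a, b, h1⟩ := hL P hP
      have h2 : log (ι P) = Phi act v (a • 1) + c • Phi act v (b • 1) := by
        rw [h1, map_smul, map_smul, Phi_one, cast_smul_vec, cast_smul_vec, smul_smul, smul_smul, mul_comm c]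
      refine ⟨y * (a • 1), y * (b • 1), ?_⟩
      rw [hF.compat, h2, Matrix.mulVec_add, Matrix.mulVec_smul, mul_Phi, mul_Phi]
    | zero => exact ⟨0, 0, by simp⟩
    | add x y _ _ h1 h2 =>
      obtain ⟨a, b, h1⟩ := h1
      obtain ⟨a', b', h2⟩ := h2
      refine ⟨a + a', b + b', ?_⟩
      rw [map_add, map_add, h1, h2, map_add, map_add]
      module
    | neg x _ h1 =>
      obtain ⟨a, b, h1⟩ := h1
      refine ⟨-a, -b, ?_⟩
      rw [map_neg, map_neg, h1, map_neg, map_neg]
      module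
  obtain ⟨α, β, h1⟩ := hsp _ hQ
  have hNp : (N : ℚ_[p]) ≠ 0 := by exact_mod_cast hN
  refine ⟨((N : ℚ)⁻¹) • α, ((N : ℚ)⁻¹) • β, ?_⟩
  have h2 : log (ι Q) = (N : ℚ_[p])⁻¹ • log (ι (N • Q)) := by
    rw [map_nsmul, map_nsmul, ← Nat.cast_smul_eq_nsmul ℚ_[p], smul_smul, inv_mul_cancel₀ hNp, one_smul]
  rw [h2, h1, map_smul, map_smul, cast_smul_vec, cast_smul_vec]
  push_cast
  module

/-- the ratio of the logarithms is transcendental -/
lemma ratio_transcendental (h : IsSimple ι log) (hr : RatioTheorem ι log) {P₁ P₂ : Γ} {c : ℚ_[p]}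
    (hind : ∀ a b : ℚ, (a : ℚ_[p]) • log (ι P₁) + (b : ℚ_[p]) • log (ι P₂) = 0 → a = 0 ∧ b = 0)
    (hc : log (ι P₂) = c • log (ι P₁)) : Transcendental ℚ c := by
  intro hal
  have hfin : ¬ IsOfFinAddOrder P₁ := by
    intro h1
    have h2 := hind 1 0 (by rw [(log_eq_zero_iff h P₁).2 h1]; simp)
    exact one_ne_zero h2.1
  obtain ⟨q, hq⟩ := hr P₁ P₂ c hfin hc hal
  have h3 := hind (-q) 1 (by
    rw [hc, hq]
    push_cast
    module)
  exact one_ne_zero h3.2

/-- **The main step.** -/
lemma main (h : IsSimple ι log) (hF : IsEndField ι log act O e) (hr : RatioTheorem ι log) {L L' : AddSubgroup Γ}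
    (hL : finrank ℤ L = 2) (hL' : finrank ℤ L' = 2) (hv : Violates p ι L) (hv' : Violates p ι L')
    (hLL' : ∀ P ∈ L', ∃ N : ℕ, N ≠ 0 ∧ N • P ∈ orbitSpan e L) : ∃ x : O, x ≠ 0 ∧ Commens (image e x L) L' := by
  obtain ⟨P₁, hP₁, P₂, hP₂, hind, hcomb⟩ := ratcomb h hL
  obtain ⟨P₁', hP₁', P₂', hP₂', hind', hcomb'⟩ := ratcomb h hL'
  rw [violates_iff h] at hv hv'
  have hne1 : ∀ {A B : Γ}, (∀ a b : ℚ, (a : ℚ_[p]) • log (ι A) + (b : ℚ_[p]) • log (ι B) = 0 → a = 0 ∧ b = 0) →
      ¬ IsOfFinAddOrder A := by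
    intro A B hAB h1
    have h2 := hAB 1 0 (by rw [(log_eq_zero_iff h A).2 h1]; simp)
    exact one_ne_zero h2.1
  have hfin := hne1 hind
  have hfin' := hne1 hind'
  set v := log (ι P₁) with hvdef
  have hratio : ∃ c : ℚ_[p], c • v = log (ι P₂) := by
    have h1 : log (ι P₂) ∈ lspan log (L.map ι) := Submodule.subset_span ⟨_, ⟨P₂, hP₂, rfl⟩, rfl⟩
    rw [lspan_eq_of_le_one h (by omega) hP₁ hfin] at h1
    exact Submodule.mem_span_singleton.1 h1
  obtain ⟨c, hc⟩ := hratio
  have hratio' : ∃ c' : ℚ_[p], c' • log (ι P₁') = log (ι P₂') := by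
    have h1 : log (ι P₂') ∈ lspan log (L'.map ι) := Submodule.subset_span ⟨_, ⟨P₂', hP₂', rfl⟩, rfl⟩
    rw [lspan_eq_of_le_one h (by omega) hP₁' hfin'] at h1
    exact Submodule.mem_span_singleton.1 h1
  obtain ⟨c', hc'⟩ := hratio'
  have htr := ratio_transcendental h hr hind hc.symm
  have hL1 : ∀ Q ∈ L, ∃ a b : ℚ, log (ι Q) = (a : ℚ_[p]) • v + (b : ℚ_[p]) • (c • v) := by
    intro Q hQ
    rw [hc]
    exact hcomb Q hQ
  obtain ⟨N₁, hN₁, hQ₁⟩ := hLL' _ hP₁'
  obtain ⟨N₂, hN₂, hQ₂⟩ := hLL' _ hP₂'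
  obtain ⟨α₁, α₂, hα⟩ := log_orbitSpan hF hL1 hN₁ hQ₁
  obtain ⟨β₁, β₂, hβ⟩ := log_orbitSpan hF hL1 hN₂ hQ₂
  let B := finBasis ℚ F
  have hkey := key h.pos act v (h.subgroup_theorem _ hfin) B B.linearIndependent
  -- coordinates
  have hco : ∀ k, ((B.repr β₁ k : ℚ) : ℚ_[p]) + c * (B.repr β₂ k : ℚ) =
      c' * (((B.repr α₁ k : ℚ) : ℚ_[p]) + c * (B.repr α₂ k : ℚ)) := by
    have h1 : ∑ k, ((((B.repr β₁ k : ℚ) : ℚ_[p]) + c * (B.repr β₂ k : ℚ)) -
        c' * (((B.repr α₁ k : ℚ) : ℚ_[p]) + c * (B.repr α₂ k : ℚ))) • (toMat (p := p) (act (B k))).mulVec v = 0 := by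
      have h2 : log (ι P₂') - c' • log (ι P₁') = 0 := by rw [hc', sub_self]
      rw [hα, hβ, Phi_sum v B α₁, Phi_sum v B α₂, Phi_sum v B β₁, Phi_sum v B β₂] at h2
      rw [← h2, smul_add, Finset.smul_sum, Finset.smul_sum, Finset.smul_sum, Finset.smul_sum, ← Finset.sum_add_distrib,
        ← Finset.sum_add_distrib, ← Finset.sum_sub_distrib]
      refine Finset.sum_congr rfl fun k _ => ?_
      change _ • Phi act v (B k) = _
      module
    intro k
    exact sub_eq_zero.1 (Fintype.linearIndependent_iff.1 hkey _ h1 k)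
  -- a coordinate where `P₁'` does not vanish
  have hk0 : ∃ k, ¬ (B.repr α₁ k = 0 ∧ B.repr α₂ k = 0) := by
    by_contra hall
    push Not at hall
    have h1 : log (ι P₁') = 0 := by
      rw [hα, Phi_sum v B α₁, Phi_sum v B α₂]
      have e1 : ∀ k, B.repr α₁ k = 0 := fun k => (hall k).1
      have e2 : ∀ k, B.repr α₂ k = 0 := fun k => (hall k).2
      simp [e1, e2]
    exact hfin' ((log_eq_zero_iff h _).1 h1)
  obtain ⟨k₀, hk₀⟩ := hk0
  set u := B.repr α₁ k₀ with hu
  set w := B.repr α₂ k₀ with hw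
  set s := B.repr β₁ k₀ with hs
  set t := B.repr β₂ k₀ with ht
  have hD0 : ((u : ℚ_[p]) + c * w) ≠ 0 := by
    intro h1
    have h2 := trans3 htr u w 0 (by rw [← h1]; push_cast; ring)
    exact hk₀ ⟨h2.1, h2.2.1⟩
  have hE : ∀ k, B.repr β₁ k * u = s * B.repr α₁ k ∧
      B.repr β₁ k * w + B.repr β₂ k * u = s * B.repr α₂ k + t * B.repr α₁ k ∧ B.repr β₂ k * w = t * B.repr α₂ k := by
    intro k
    have h1 := hco k
    have h2 := hco k₀
    have h3 : (((B.repr β₁ k : ℚ) : ℚ_[p]) + c * (B.repr β₂ k : ℚ)) * ((u : ℚ_[p]) + c * w) =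
        ((s : ℚ_[p]) + c * t) * (((B.repr α₁ k : ℚ) : ℚ_[p]) + c * (B.repr α₂ k : ℚ)) := by
      rw [h1]
      change _ = (((B.repr β₁ k₀ : ℚ) : ℚ_[p]) + c * (B.repr β₂ k₀ : ℚ)) * _
      rw [h2]
      ring
    have h4 := trans3 htr (B.repr β₁ k * u - s * B.repr α₁ k)
      (B.repr β₁ k * w + B.repr β₂ k * u - (s * B.repr α₂ k + t * B.repr α₁ k)) (B.repr β₂ k * w - t * B.repr α₂ k) (by
        push_cast
        linear_combination h3)
    exact ⟨by linarith [h4.1], by linarith [h4.2.1], by linarith [h4.2.2]⟩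
  have hΔ : u * t - w * s ≠ 0 := by
    intro h0
    -- then `c'` is rational
    have hrat : ∃ l : ℚ, s = l * u ∧ t = l * w := by
      by_cases hu0 : u = 0
      · have hw0 : w ≠ 0 := fun h1 => hk₀ ⟨hu0, h1⟩
        refine ⟨t / w, ?_, by field_simp⟩
        rw [hu0] at h0 ⊢
        have : w * s = 0 := by linarith
        rw [(mul_eq_zero.1 this).resolve_left hw0]
        ring
      · refine ⟨s / u, by field_simp, ?_⟩
        field_simp
        linarith
    obtain ⟨l, hl1, hl2⟩ := hrat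
    have h2 := hco k₀
    have h3 : c' = l := by
      have h4 : ((s : ℚ) : ℚ_[p]) + c * (t : ℚ) = c' * ((u : ℚ_[p]) + c * w) := h2
      rw [hl1, hl2] at h4
      push_cast at h4
      have h5 : (c' - l) * ((u : ℚ_[p]) + c * w) = 0 := by linear_combination -h4
      exact sub_eq_zero.1 ((mul_eq_zero.1 h5).resolve_right hD0)
    have h4 := hind' (-l) 1 (by
      rw [← hc', h3]
      push_cast
      module)
    exact one_ne_zero h4.2
  choose l hl using fun k => prop4 u w s t _ _ _ _ hΔ (hE k).1 (hE k).2.1 (hE k).2.2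
  set lam : F := ∑ k, l k • B k with hlam
  have hexp : ∀ (α : F) (q : ℚ), (∀ k, B.repr α k = l k * q) → α = q • lam := by
    intro α q hq
    rw [hlam, ← B.sum_repr α, Finset.smul_sum]
    refine Finset.sum_congr rfl fun k _ => ?_
    rw [hq k, smul_smul, mul_comm]
  have e1 : α₁ = u • lam := hexp _ _ fun k => (hl k).1
  have e2 : α₂ = w • lam := hexp _ _ fun k => (hl k).2.1
  have e3 : β₁ = s • lam := hexp _ _ fun k => (hl k).2.2.1
  have e4 : β₂ = t • lam := hexp _ _ fun k => (hl k).2.2.2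
  have hlam0 : lam ≠ 0 := by
    intro h0
    apply hfin'
    rw [← log_eq_zero_iff h, hα, e1, e2, h0]
    simp
  obtain ⟨N, hN, hO⟩ := hF.order lam
  have hNF : (N : F) ≠ 0 := by exact_mod_cast hN
  have hNp : (N : ℚ_[p]) ≠ 0 := by exact_mod_cast hN
  have hNQ : (N : ℚ) ≠ 0 := by exact_mod_cast hN
  let x : O := ⟨_, hO⟩
  have hx0 : x ≠ 0 := by
    intro h0
    have := congrArg (fun z : O => (z : F)) h0
    exact mul_ne_zero hNF hlam0 this
  have hPx : Phi act v ((x : O) : F) = (N : ℚ_[p]) • Phi act v lam := by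
    have h1 : ((x : O) : F) = (N : ℚ) • lam := by
      rw [Algebra.smul_def]
      simp [x]
    rw [h1, map_smul, cast_smul_vec]
    push_cast
    rfl
  have hv1 : (toMat (p := p) (act x)).mulVec v = (N : ℚ_[p]) • Phi act v lam := by
    rw [← hPx]
    rfl
  have hx1 : log (ι (e x P₁)) = (N : ℚ_[p]) • Phi act v lam := by rw [hF.compat, ← hvdef, hv1]
  have hx2 : log (ι (e x P₂)) = (N : ℚ_[p]) • (c • Phi act v lam) := by
    rw [hF.compat, ← hc, Matrix.mulVec_smul, hv1, smul_comm]
  have hl1 : log (ι P₁') = (u : ℚ_[p]) • Phi act v lam + (w : ℚ_[p]) • (c • Phi act v lam) := by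
    rw [hα, e1, e2, map_smul, map_smul, cast_smul_vec, cast_smul_vec]
    module
  have hl2 : log (ι P₂') = (s : ℚ_[p]) • Phi act v lam + (t : ℚ_[p]) • (c • Phi act v lam) := by
    rw [hβ, e3, e4, map_smul, map_smul, cast_smul_vec, cast_smul_vec]
    module
  refine ⟨x, hx0, ?_, ?_⟩
  · intro Q hQ
    obtain ⟨P, hP, rfl⟩ := mem_image.1 hQ
    obtain ⟨a, b, hab⟩ := hcomb P hP
    have hr1 : N * (a * t - b * s) / (u * t - w * s) * u + N * (u * b - w * a) / (u * t - w * s) * s = N * a := by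
      rw [div_mul_eq_mul_div, div_mul_eq_mul_div, ← add_div, div_eq_iff hΔ]
      ring
    have hr2 : N * (a * t - b * s) / (u * t - w * s) * w + N * (u * b - w * a) / (u * t - w * s) * t = N * b := by
      rw [div_mul_eq_mul_div, div_mul_eq_mul_div, ← add_div, div_eq_iff hΔ]
      ring
    refine mult_mem h hP₁' hP₂' (N * (a * t - b * s) / (u * t - w * s)) (N * (u * b - w * a) / (u * t - w * s)) ?_
    generalize N * (a * t - b * s) / (u * t - w * s) = r₁ at hr1 hr2
    generalize N * (u * b - w * a) / (u * t - w * s) = r₂ at hr1 hr2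
    have hr1p : (r₁ : ℚ_[p]) * u + r₂ * s = N * a := by exact_mod_cast congrArg (fun z : ℚ => (z : ℚ_[p])) hr1
    have hr2p : (r₁ : ℚ_[p]) * w + r₂ * t = N * b := by exact_mod_cast congrArg (fun z : ℚ => (z : ℚ_[p])) hr2
    have h1 : log (ι (e x P)) = (N : ℚ_[p]) • ((a : ℚ_[p]) • Phi act v lam + (b : ℚ_[p]) • (c • Phi act v lam)) := by
      rw [hF.compat, hab, ← hc, Matrix.mulVec_add, Matrix.mulVec_smul, Matrix.mulVec_smul, Matrix.mulVec_smul, hv1]
      module
    rw [h1, hl1, hl2]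
    match_scalars
    linear_combination -hr1p - c * hr2p
  · intro P hP
    obtain ⟨a, b, hab⟩ := hcomb' P hP
    refine mult_mem h (mem_image.2 ⟨P₁, hP₁, rfl⟩) (mem_image.2 ⟨P₂, hP₂, rfl⟩) ((a * u + b * s) / N)
      ((a * w + b * t) / N) ?_
    rw [hab, hx1, hx2, hl1, hl2]
    push_cast
    match_scalars
    field_simp
    ring

/-- the group `F L` has rank `[F : ℚ] · rank L` -/
lemma rank_orbitSpan (h : IsSimple ι log) (hF : IsEndField ι log act O e) (L : AddSubgroup Γ) (hL : r ι log L ≤ 1) :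
    finrank ℚ F * finrank ℤ L ≤ finrank ℤ (orbitSpan e L) := by
  have hfL : Module.Finite ℤ L := fin_of h L
  have hfM : Module.Finite ℤ (orbitSpan e L) := fin_of h _
  rcases Nat.eq_zero_or_pos (finrank ℤ L) with h0 | hpos
  · rw [h0, mul_zero]
    exact Nat.zero_le _
  obtain ⟨P, hP⟩ := exists_linearIndependent_of_le_finrank (R := ℤ) (M := L) le_rfl
  have hPQ := indep_rat h P hP
  let i₀ : Fin (finrank ℤ L) := ⟨0, hpos⟩
  set v : Fin n → ℚ_[p] := log (ι (P i₀)) with hv
  have hv0 : v ≠ 0 := hPQ.ne_zero i₀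
  have hfin0 : ¬ IsOfFinAddOrder ((P i₀ : L) : Γ) := fun h1 => hv0 ((log_eq_zero_iff h _).2 h1)
  have hspan := lspan_eq_of_le_one h hL (P i₀).2 hfin0
  have hc : ∀ i, ∃ c : ℚ_[p], c • v = log (ι (P i)) := by
    intro i
    have h1 : log (ι (P i)) ∈ lspan log (L.map ι) := Submodule.subset_span ⟨_, ⟨P i, (P i).2, rfl⟩, rfl⟩
    rw [hspan] at h1
    exact Submodule.mem_span_singleton.1 h1
  choose c hc using hc
  have hcQ : LinearIndependent ℚ c := by
    rw [Fintype.linearIndependent_iff] at hPQ ⊢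
    intro q hq
    refine hPQ q ?_
    calc ∑ i, q i • log (ι (P i)) = ∑ i, (q i • c i) • v := by
          refine Finset.sum_congr rfl fun i _ => ?_
          rw [← hc i, cast_smul_vec, smul_smul, Algebra.smul_def]
          rfl
      _ = (∑ i, q i • c i) • v := (Finset.sum_smul ..).symm
      _ = 0 := by rw [hq, zero_smul]
  let b := finBasis ℚ F
  choose N hN hO using fun j => hF.order (b j)
  let γ : Fin (finrank ℚ F) → F := fun j => (N j : F) * b j
  have hγ : LinearIndependent ℚ γ := by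
    have h1 : ∀ j, (N j : ℚ) ≠ 0 := fun j => by exact_mod_cast hN j
    have h2 := b.linearIndependent.units_smul fun j => Units.mk0 _ (h1 j)
    convert h2 using 1
    funext j
    simp [γ, Algebra.smul_def, Units.smul_def]
  have hkey := key h.pos act v (h.subgroup_theorem _ hfin0) γ hγ
  let w : Fin (finrank ℤ L) × Fin (finrank ℚ F) → orbitSpan e L := fun ij =>
    ⟨e ⟨_, hO ij.2⟩ (P ij.1), AddSubgroup.subset_closure ⟨_, _, (P ij.1).2, rfl⟩⟩
  have hw : LinearIndependent ℤ w := by
    rw [Fintype.linearIndependent_iff]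
    intro a ha
    have h1 : ∑ j, (∑ i, (a (i, j) : ℚ_[p]) * c i) • (toMat (p := p) (act (γ j))).mulVec v = 0 := by
      have h2 : log (ι ((∑ ij, a ij • w ij : orbitSpan e L) : Γ)) = 0 := by
        rw [ha]
        simp
      rw [← h2, AddSubgroup.val_finset_sum, map_sum, map_sum, Fintype.sum_prod_type_right]
      refine Finset.sum_congr rfl fun j _ => ?_
      rw [Finset.sum_smul]
      refine Finset.sum_congr rfl fun i _ => ?_
      rw [AddSubgroup.coe_zsmul, map_zsmul, map_zsmul]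
      change _ = a (i, j) • log (ι (e ⟨_, hO j⟩ (P i)))
      rw [hF.compat, ← hc i, Matrix.mulVec_smul, ← Int.cast_smul_eq_zsmul ℚ_[p], smul_smul]
    rintro ⟨i, j⟩
    have h3 := Fintype.linearIndependent_iff.1 hkey _ h1 j
    have h4 : ∑ i, (a (i, j) : ℚ) • c i = 0 := by
      rw [← h3]
      refine Finset.sum_congr rfl fun i _ => ?_
      rw [Algebra.smul_def]
      simp
    have h5 := Fintype.linearIndependent_iff.1 hcQ _ h4 i
    exact_mod_cast h5
  have := hw.fintype_card_le_finrank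
  rw [Fintype.card_prod, Fintype.card_fin, Fintype.card_fin] at this
  rw [mul_comm]
  exact this

/-- the rank of `F L` is at most `2 [F : ℚ]` -/
lemma rank_orbitSpan_le (h : IsSimple ι log) (hF : IsEndField ι log act O e) {L : AddSubgroup Γ}
    (hL : finrank ℤ L = 2) (hv : Violates p ι L) : finrank ℤ (orbitSpan e L) ≤ 2 * finrank ℚ F := by
  obtain ⟨P₁, hP₁, P₂, hP₂, hind, hcomb⟩ := ratcomb h hL
  rw [violates_iff h] at hv
  have hfin : ¬ IsOfFinAddOrder P₁ := by
    intro h1
    have h2 := hind 1 0 (by rw [(log_eq_zero_iff h P₁).2 h1]; simp)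
    exact one_ne_zero h2.1
  set v := log (ι P₁) with hvdef
  have hratio : ∃ c : ℚ_[p], c • v = log (ι P₂) := by
    have h1 : log (ι P₂) ∈ lspan log (L.map ι) := Submodule.subset_span ⟨_, ⟨P₂, hP₂, rfl⟩, rfl⟩
    rw [lspan_eq_of_le_one h (by omega) hP₁ hfin] at h1
    exact Submodule.mem_span_singleton.1 h1
  obtain ⟨c, hc⟩ := hratio
  have hL1 : ∀ Q ∈ L, ∃ a b : ℚ, log (ι Q) = (a : ℚ_[p]) • v + (b : ℚ_[p]) • (c • v) := by
    intro Q hQ
    rw [hc]
    exact hcomb Q hQ
  have hfM : Module.Finite ℤ (orbitSpan e L) := fin_of h _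
  let T : F × F →ₗ[ℚ] (Fin n → ℚ_[p]) := (Phi act v).coprod (c • Phi act v)
  obtain ⟨P, hP⟩ := exists_linearIndependent_of_le_finrank (R := ℤ) (M := orbitSpan e L) le_rfl
  have hQ := indep_rat h P hP
  have hmem : ∀ i, log (ι (P i)) ∈ LinearMap.range T := by
    intro i
    obtain ⟨α, β, h1⟩ := log_orbitSpan hF hL1 one_ne_zero (Q := (P i : Γ)) (by rw [one_smul]; exact (P i).2)
    exact ⟨(α, β), by rw [h1]; simp [T]⟩
  let w : Fin (finrank ℤ (orbitSpan e L)) → LinearMap.range T := fun i => ⟨_, hmem i⟩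
  have hw : LinearIndependent ℚ w := LinearIndependent.of_comp (LinearMap.range T).subtype hQ
  have h3 := hw.fintype_card_le_finrank
  have h4 := LinearMap.finrank_range_le T
  rw [Module.finrank_prod] at h4
  rw [Fintype.card_fin] at h3
  omega

/-- the images of a counterexample -/
lemma image_violates (h : IsSimple ι log) (hF : IsEndField ι log act O e) (hr : RatioTheorem ι log) {L : AddSubgroup Γ}
    (hL : finrank ℤ L = 2) (hv : Violates p ι L) {x : O} (hx : x ≠ 0) :
    finrank ℤ (image e x L) = 2 ∧ Violates p ι (image e x L) := by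
  obtain ⟨P₁, hP₁, P₂, hP₂, hind, hcomb⟩ := ratcomb h hL
  rw [violates_iff h] at hv
  have hfin : ¬ IsOfFinAddOrder P₁ := by
    intro h1
    have h2 := hind 1 0 (by rw [(log_eq_zero_iff h P₁).2 h1]; simp)
    exact one_ne_zero h2.1
  set v := log (ι P₁) with hvdef
  have hratio : ∃ c : ℚ_[p], c • v = log (ι P₂) := by
    have h1 : log (ι P₂) ∈ lspan log (L.map ι) := Submodule.subset_span ⟨_, ⟨P₂, hP₂, rfl⟩, rfl⟩
    rw [lspan_eq_of_le_one h (by omega) hP₁ hfin] at h1
    exact Submodule.mem_span_singleton.1 h1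
  obtain ⟨c, hc⟩ := hratio
  have htr := ratio_transcendental h hr hind hc.symm
  have hxF : (x : F) ≠ 0 := fun h0 => hx (Subtype.ext h0)
  have hPhi : Phi act v (x : F) ≠ 0 := by
    have hγ : LinearIndependent ℚ (fun _ : Fin 1 => (x : F)) := by
      rw [linearIndependent_unique_iff]
      exact hxF
    exact (key h.pos act v (h.subgroup_theorem _ hfin) _ hγ).ne_zero 0
  have h1 : log (ι (e x P₁)) = Phi act v (x : F) := hF.compat x P₁
  have h2 : log (ι (e x P₂)) = c • Phi act v (x : F) := by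
    rw [hF.compat, ← hc, Matrix.mulVec_smul]
    rfl
  have hfL : Module.Finite ℤ L := fin_of h L
  have hfI : Module.Finite ℤ (image e x L) := fin_of h _
  have hle : finrank ℤ (image e x L) ≤ 2 := by
    rw [← hL]
    let g : L →ₗ[ℤ] image e x L := (AddMonoidHom.mk' (fun P : L => (⟨e x P, mem_image.2 ⟨P, P.2, rfl⟩⟩ : image e x L))
      (fun a b => by
        apply Subtype.ext
        simp)).toIntLinearMap
    have hg : Function.Surjective g := by
      rintro ⟨Q, hQ⟩
      obtain ⟨P, hP, rfl⟩ := mem_image.1 hQ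
      exact ⟨⟨P, hP⟩, rfl⟩
    exact LinearMap.finrank_le_finrank_of_surjective hg
  have hge : 2 ≤ finrank ℤ (image e x L) := by
    have hw : LinearIndependent ℤ (![⟨e x P₁, mem_image.2 ⟨P₁, hP₁, rfl⟩⟩, ⟨e x P₂, mem_image.2 ⟨P₂, hP₂, rfl⟩⟩] :
        Fin 2 → image e x L) := by
      rw [LinearIndependent.pair_iff]
      intro a b hab
      have h3 := congrArg (fun z : image e x L => log (ι (z : Γ))) hab
      have h4 : ((a : ℚ_[p]) + b * c) • Phi act v (x : F) = 0 := by
        simp only [AddSubgroup.coe_add, AddSubgroup.coe_zsmul, map_add, map_zsmul, h1, h2, AddSubgroup.coe_zero,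
          map_zero] at h3
        rw [← h3, ← Int.cast_smul_eq_zsmul ℚ_[p], ← Int.cast_smul_eq_zsmul ℚ_[p]]
        module
      have h5 := (smul_eq_zero.1 h4).resolve_right hPhi
      have h6 := trans3 htr a b 0 (by
        push_cast
        linear_combination h5)
      exact ⟨by exact_mod_cast h6.1, by exact_mod_cast h6.2.1⟩
    have := hw.fintype_card_le_finrank
    rwa [Fintype.card_fin] at this
  have hrk : finrank ℤ (image e x L) = 2 := le_antisymm hle hge
  refine ⟨hrk, ?_⟩
  rw [violates_iff h, hrk]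
  have h3 : lspan log ((image e x L).map ι) ≤ Submodule.span ℚ_[p] {Phi act v (x : F)} := by
    unfold lspan qspan
    rw [Submodule.span_le]
    rintro _ ⟨_, ⟨Q, hQ, rfl⟩, rfl⟩
    obtain ⟨P, hP, rfl⟩ := mem_image.1 hQ
    obtain ⟨a, b, hab⟩ := hcomb P hP
    refine Submodule.mem_span_singleton.2 ⟨(a : ℚ_[p]) + b * c, ?_⟩
    rw [hF.compat, hab, ← hc, Matrix.mulVec_add, Matrix.mulVec_smul, Matrix.mulVec_smul, Matrix.mulVec_smul]
    change _ = (a : ℚ_[p]) • Phi act v (x : F) + (b : ℚ_[p]) • c • Phi act v (x : F)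
    module
  have h4 : r ι log (image e x L) ≤ 1 := by
    refine (Submodule.finrank_mono h3).trans ?_
    exact (finrank_span_le_card _).trans (by simp)
  omega

end

/-- **The counterexamples to Q1 of rank two in `F L` form one orbit under `F^×`.** -/
theorem result {p : ℕ} [Fact p.Prime] {n : ℕ} {Γ G : Type} [AddCommGroup Γ] [AddCommGroup G] [TopologicalSpace G]
    [IsTopologicalAddGroup G] [CompactSpace G] [T2Space G] (ι : Γ →+ G) (log : G →+ (Fin n → ℚ_[p])) (hA : IsSimple ι log)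
    (hr : RatioTheorem ι log) {F : Type} [Field F] [NumberField F] (act : F →ₐ[ℚ] Matrix (Fin n) (Fin n) ℚ) (O : Subring F)
    (e : O →+* AddMonoid.End Γ) (hF : IsEndField ι log act O e) :
    (∀ L : AddSubgroup Γ, finrank ℤ L = 2 → Violates p ι L → ∀ x : O, x ≠ 0 →
      finrank ℤ (image e x L) = 2 ∧ Violates p ι (image e x L)) ∧
    (∀ L : AddSubgroup Γ, finrank ℤ L = 2 → Violates p ι L →
      finrank ℤ (orbitSpan e L) = 2 * finrank ℚ F) ∧
    (∀ L L' : AddSubgroup Γ, finrank ℤ L = 2 → finrank ℤ L' = 2 → Violates p ι L → Violates p ι L' →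
      (∀ P ∈ L', ∃ N : ℕ, N ≠ 0 ∧ N • P ∈ orbitSpan e L) → ∃ x : O, x ≠ 0 ∧ Commens (image e x L) L') ∧
    (finrank ℤ Γ = 2 * finrank ℚ F → ∀ L L' : AddSubgroup Γ, finrank ℤ L = 2 → finrank ℤ L' = 2 →
      Violates p ι L → Violates p ι L' → ∃ x : O, x ≠ 0 ∧ Commens (image e x L) L') := by
  refine ⟨fun L hL hv x hx => image_violates hA hF hr hL hv hx, ?_, ?_, ?_⟩
  · intro L hL hv
    have h1 := (violates_iff hA L).1 hv
    have h2 := rank_orbitSpan hA hF L (by omega)
    rw [hL] at h2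
    have h3 := rank_orbitSpan_le hA hF hL hv
    omega
  · intro L L' hL hL' hv hv' hLL'
    exact main hA hF hr hL hL' hv hv' hLL'
  · intro hrk L L' hL hL' hv hv'
    refine main hA hF hr hL hL' hv hv' ?_
    have h1 := (violates_iff hA L).1 hv
    have h2 := rank_orbitSpan hA hF L (by omega)
    have htop : finrank ℤ (⊤ : AddSubgroup Γ) = finrank ℤ Γ :=
      (AddSubgroup.topEquiv (G := Γ)).toIntLinearEquiv.finrank_eq
    intro P _
    exact torsion_of_rank hA (le_top : orbitSpan e L ≤ ⊤) (by rw [htop, hrk, mul_comm, ← hL]; exact h2) P trivial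

end Pool.Agent.Results.MP_52423f_nt.OneOrbit
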