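import Pool.Agent.Q315.PA.Uniq

/-!
# Subgroups of `A(ℚ)` which have rank one over a field of endomorphisms

Let `A` be a simple abelian variety over `ℚ` of dimension `n`, `p` a prime and `F` a subfield of its endomorphism algebra (for
example the endomorphism algebra itself if it is commutative, or `ℚ`). We show that Q1 holds for all subgroups `L` of `A(ℚ)` which
are contained in `F · P₀` for a point `P₀` (a nonzero multiple of every element of `L` is the image of `P₀` under an endomorphism
from `F`): the closure of `L` in `A(ℚ_p)` is isomorphic to `ℤ_p ^ m` modulo finite torsion, where `m` is the rank of `L`. So Q1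
holds for all subgroups of `A(ℚ)` if `A(ℚ) ⊗ ℚ` is a vector space of dimension one over `F`, for example for the abelian varieties
of dimension `[F : ℚ]` attached to newforms of weight two whose `L`-series has a simple zero at the centre.

Moreover the closure of a subgroup of positive rank which is stable under the endomorphisms from `F` has `ℤ_p`-rank at least
`[F : ℚ]`; so if `[F : ℚ] = n` (abelian varieties of `GL₂`-type) then every such subgroup, of any rank, is open in `A(ℚ_p)` after
taking the closure: it has `ℤ_p`-rank `n`.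

The known theorems on abelian varieties which are used are the hypotheses `IsSimple` and `IsEndField`. The main one is the `p`-adic
analytic subgroup theorem.

Proof. Let `ℓ` be the logarithm of `P₀`. The annihilator of `ℓ` in `F ⊗ ℚ_p = ℚ_p[θ]` is generated by `g(θ)` for a factor `g` of the
minimal polynomial of `θ`; its coefficients are algebraic numbers. So the rows of the matrix `g(θ)` are linear relations between the
coordinates of `ℓ` with algebraic coefficients, and they vanish.
-/

set_option autoImplicit false

namespace Pool.Agent.Results.MP_52423f_nt.RankOneOverSubfields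

open Module Pool.Agent.Q315.PA

/-- **Q1 for subgroups of rank one over a field of endomorphisms, and lower bounds for stable subgroups.** -/
theorem result {p : ℕ} [Fact p.Prime] {n : ℕ} {Γ G : Type} [AddCommGroup Γ] [AddCommGroup G] [TopologicalSpace G]
    [IsTopologicalAddGroup G] [CompactSpace G] [T2Space G] (ι : Γ →+ G) (log : G →+ (Fin n → ℚ_[p])) (hA : IsSimple ι log)
    {F : Type} [Field F] [NumberField F] (act : F →ₐ[ℚ] Matrix (Fin n) (Fin n) ℚ) (O : Subring F) (e : O →+* AddMonoid.End Γ)
    (hF : IsEndField ι log act O e) (L : AddSubgroup Γ) :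
    (∀ P₀ : Γ, (∀ P ∈ L, ∃ N : ℕ, N ≠ 0 ∧ ∃ x : O, N • P = e x P₀) →
      HasZpRank p (L.map ι).topologicalClosure (finrank ℤ L)) ∧
    ((∀ x : O, ∀ P ∈ L, e x P ∈ L) → (∃ P ∈ L, ¬ IsOfFinAddOrder P) →
      (∃ d : ℕ, finrank ℚ F ≤ d ∧ d ≤ n ∧ HasZpRank p (L.map ι).topologicalClosure d) ∧
      (finrank ℚ F = n → HasZpRank p (L.map ι).topologicalClosure n)) := by
  refine ⟨fun P₀ hL => rankOne hA hF L P₀ hL, ?_⟩
  rintro hst ⟨P₀, hP₀, hfin⟩
  have hℓ := hA.subgroup_theorem P₀ hfin
  let b := finBasis ℚ F
  have hkey := key hA.pos act (log (ι P₀)) hℓ b b.linearIndependent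
  -- the vectors belong to the span of the logarithms
  have hmem : ∀ i, (toMat (p := p) (act (b i))).mulVec (log (ι P₀)) ∈ lspan log (L.map ι) := by
    intro i
    obtain ⟨N, hN, hx⟩ := hF.order (b i)
    have hNF : (N : F) ≠ 0 := by exact_mod_cast hN
    have hNp : (N : ℚ_[p]) ≠ 0 := by exact_mod_cast hN
    have h1 : (N : ℚ_[p]) • (toMat (p := p) (act (b i))).mulVec (log (ι P₀)) = log (ι (e ⟨_, hx⟩ P₀)) := by
      rw [hF.compat, ← Matrix.smul_mulVec]
      congr 1
      have h3 : (N : F) * b i = (N : ℚ) • b i := by
        rw [Algebra.smul_def]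
        simp
      simp only [h3, map_smul]
      ext i j
      simp [toMat]
    have h2 : (toMat (p := p) (act (b i))).mulVec (log (ι P₀)) = (N : ℚ_[p])⁻¹ • log (ι (e ⟨_, hx⟩ P₀)) := by
      rw [← h1, smul_smul, inv_mul_cancel₀ hNp, one_smul]
    rw [h2]
    exact Submodule.smul_mem _ _ (Submodule.subset_span ⟨_, ⟨_, hst _ _ hP₀, rfl⟩, rfl⟩)
  have hle : finrank ℚ F ≤ finrank ℚ_[p] (lspan log (L.map ι)) := by
    have h3 : Submodule.span ℚ_[p] (Set.range fun i => (toMat (p := p) (act (b i))).mulVec (log (ι P₀))) ≤
        lspan log (L.map ι) := by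
      rw [Submodule.span_le]
      rintro _ ⟨i, rfl⟩
      exact hmem i
    have h4 := Submodule.finrank_mono h3
    rwa [finrank_span_eq_card hkey, Fintype.card_fin] at h4
  have hn : finrank ℚ_[p] (lspan log (L.map ι)) ≤ n := by
    have := Submodule.finrank_le (lspan log (L.map ι))
    rwa [finrank_fin_fun] at this
  have hrk := closure_rank hA.logarithm (L.map ι)
  refine ⟨⟨_, hle, hn, hrk⟩, fun hd => ?_⟩
  have h5 : finrank ℚ_[p] (lspan log (L.map ι)) = n := le_antisymm hn (hd ▸ hle)
  rwa [h5] at hrk

end Pool.Agent.Results.MP_52423f_nt.RankOneOverSubfields
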